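import Pool.Agent.Helper12.HeightLB

set_option autoImplicit false

open Polynomial

namespace Pool.Agent.Helper12.HeightLB

lemma avoid (S : Set ℤ) (hS : S.Finite) (N : ℕ) :
    ∃ n : ℕ, N ≤ n ∧ 1 ≤ n ∧ ((n : ℤ) ^ 2) ∉ S := by
  by_contra hcon
  push Not at hcon
  have hinj : Set.InjOn (fun n : ℕ => ((n : ℤ) ^ 2)) (Set.Ici (max N 1)) := by
    intro a _ b _ h
    have h' : (a : ℤ) ^ 2 = (b : ℤ) ^ 2 := h
    have h2 : a ^ 2 = b ^ 2 := by exact_mod_cast h'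
    exact Nat.pow_left_injective (n := 2) (by norm_num) h2
  have hmaps : ∀ n ∈ Set.Ici (max N 1), (fun n : ℕ => ((n : ℤ) ^ 2)) n ∈ S := by
    intro n hn
    have hn' : max N 1 ≤ n := hn
    exact hcon n (le_trans (le_max_left _ _) hn') (le_trans (le_max_right _ _) hn')
  have := Set.Finite.of_injOn hmaps hinj hS
  exact (Set.Ici_infinite (max N 1)) this

lemma sep_X_mul (f : ℤ[X]) (hf : (f.map (Int.castRingHom ℚ)).Separable) (h0 : f.coeff 0 ≠ 0) :
    ((X * f).map (Int.castRingHom ℚ)).Separable := by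
  rw [Polynomial.map_mul, Polynomial.map_X]
  refine Polynomial.Separable.mul separable_X hf ?_
  rw [Polynomial.irreducible_X.coprime_iff_not_dvd, Polynomial.X_dvd_iff]
  rw [Polynomial.coeff_map]
  simpa using h0

/-! ### First family -/

noncomputable def G0 (a : ℕ) : ℤ[X] := X ^ (4 * a + 3) - C 8 * X ^ (a + 1)
noncomputable def G1 (a : ℕ) : ℤ[X] := C 4 * X ^ (3 * a + 2) + C 4

lemma G_cop (a : ℕ) (z : ℂ) (h : aeval z (G1 a) = 0) : aeval z (G0 a) ≠ 0 := by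
  have h1 : z ^ (3 * a + 2) = -1 := by
    simp only [G1, map_add, map_mul, map_pow, aeval_X, aeval_C] at h
    simp at h
    linear_combination h / 4
  have hz : z ≠ 0 := by
    rintro rfl
    rw [zero_pow (by omega)] at h1
    norm_num at h1
  have h2 : aeval z (G0 a) = -9 * z ^ (a + 1) := by
    simp only [G0, map_sub, map_mul, map_pow, aeval_X, aeval_C]
    have h8 : (algebraMap ℤ ℂ) (8 : ℤ) = (8 : ℂ) := by simp
    rw [h8]
    have : z ^ (4 * a + 3) = z ^ (3 * a + 2) * z ^ (a + 1) := by rw [← pow_add]; congr 1; omega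
    rw [this, h1]; ring
  rw [h2]
  exact mul_ne_zero (by norm_num) (pow_ne_zero _ hz)

lemma G_W (a : ℕ) : G0 a * derivative (G1 a) - derivative (G0 a) * G1 a ≠ 0 := by
  intro h
  have := congrArg (Polynomial.eval 1) h
  simp [G0, G1, Polynomial.derivative_mul] at this
  have h2 : (a : ℤ) ≥ 0 := by positivity
  nlinarith

lemma G_coeff (a : ℕ) (v : ℤ) (i : ℕ) : (G0 a + C v * G1 a).coeff i =
    (if i = 4 * a + 3 then 1 else 0) - 8 * (if i = a + 1 then 1 else 0) +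
      v * (4 * (if i = 3 * a + 2 then 1 else 0) + (if i = 0 then 4 else 0)) := by
  simp only [G0, G1, coeff_add, coeff_sub, coeff_C_mul, coeff_X_pow, coeff_C]

lemma G_deg (a : ℕ) (v : ℤ) : (G0 a + C v * G1 a).natDegree = 4 * a + 3 := by
  apply Polynomial.natDegree_eq_of_le_of_coeff_ne_zero
  · unfold G0 G1
    compute_degree
    all_goals omega
  · have h1 : (4 * a + 3 ≠ a + 1) := by omega
    have h2 : (4 * a + 3 ≠ 3 * a + 2) := by omega
    rw [G_coeff]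
    simp [h1, h2]

lemma G_bd (a : ℕ) (v : ℤ) (hv : 1 ≤ v) (i : ℕ) : |(G0 a + C v * G1 a).coeff i| ≤ 17 * v := by
  rw [G_coeff, abs_le]
  split_ifs <;> constructor <;> linarith

lemma G_sq (a : ℕ) (n : ℤ) : ((n ^ 6) ^ a * (n ^ 6) ^ a * n ^ 9 + 2 * (n ^ 6) ^ a * n ^ 5 - 2 * n) ^ 2 =
    (G0 a + C (n ^ 2) * G1 a).eval (n ^ 6) := by
  simp only [G0, G1, eval_add, eval_sub, eval_mul, eval_C, eval_pow, eval_X]
  have e1 : (n ^ 6) ^ (4 * a + 3) = ((n ^ 6) ^ a) ^ 4 * n ^ 18 := by ring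
  have e2 : (n ^ 6) ^ (a + 1) = ((n ^ 6) ^ a) * n ^ 6 := by ring
  have e3 : (n ^ 6) ^ (3 * a + 2) = ((n ^ 6) ^ a) ^ 3 * n ^ 12 := by ring
  rw [e1, e2, e3]
  generalize (n ^ 6) ^ a = u
  ring

/-! ### Second family -/

noncomputable def H0 (a : ℕ) : ℤ[X] := C 1 - C 8 * X ^ (3 * a + 4)
noncomputable def H1 (a : ℕ) : ℤ[X] := C 4 * X ^ (a + 1) + C 4 * X ^ (4 * a + 5)

lemma H_cop (a : ℕ) (z : ℂ) (h : aeval z (H1 a) = 0) : aeval z (H0 a) ≠ 0 := by
  simp only [H1, map_add, map_mul, map_pow, aeval_X, aeval_C] at h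
  simp only [H0, map_sub, map_mul, map_pow, aeval_X, aeval_C]
  have h8 : (algebraMap ℤ ℂ) (8 : ℤ) = (8 : ℂ) := by simp
  have h4 : (algebraMap ℤ ℂ) (4 : ℤ) = (4 : ℂ) := by simp
  rw [h4] at h
  rw [h8]
  have h5 : z ^ (4 * a + 5) = z ^ (a + 1) * z ^ (3 * a + 4) := by rw [← pow_add]; congr 1; omega
  have h6 : z ^ (a + 1) * (1 + z ^ (3 * a + 4)) = 0 := by
    rw [h5] at h
    linear_combination h / 4
  rcases mul_eq_zero.mp h6 with h7 | h7
  · have hz : z = 0 := pow_eq_zero_iff (by omega) |>.mp h7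
    subst hz
    rw [zero_pow (by omega)]
    simp
  · have : z ^ (3 * a + 4) = -1 := by linear_combination h7
    rw [this]
    simp
    norm_num

lemma H_W (a : ℕ) : H0 a * derivative (H1 a) - derivative (H0 a) * H1 a ≠ 0 := by
  intro h
  have := congrArg (Polynomial.eval 1) h
  simp [H0, H1, Polynomial.derivative_mul] at this
  have h2 : (a : ℤ) ≥ 0 := by positivity
  nlinarith

lemma H_coeff (a : ℕ) (v : ℤ) (i : ℕ) : (H0 a + C v * H1 a).coeff i =
    (if i = 0 then 1 else 0) - 8 * (if i = 3 * a + 4 then 1 else 0) +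
      v * (4 * (if i = a + 1 then 1 else 0) + 4 * (if i = 4 * a + 5 then 1 else 0)) := by
  simp only [H0, H1, coeff_add, coeff_sub, coeff_C_mul, coeff_X_pow, coeff_C]

lemma H_deg (a : ℕ) (v : ℤ) (hv : v ≠ 0) : (H0 a + C v * H1 a).natDegree = 4 * a + 5 := by
  apply Polynomial.natDegree_eq_of_le_of_coeff_ne_zero
  · unfold H0 H1
    compute_degree
    all_goals omega
  · have h1 : (4 * a + 5 ≠ a + 1) := by omega
    have h2 : (4 * a + 5 ≠ 3 * a + 4) := by omega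
    rw [H_coeff]
    simp [h1, h2, hv]

lemma H_bd (a : ℕ) (v : ℤ) (hv : 1 ≤ v) (i : ℕ) : |(H0 a + C v * H1 a).coeff i| ≤ 17 * v := by
  rw [H_coeff, abs_le]
  split_ifs <;> constructor <;> linarith

lemma H_sq (a : ℕ) (n : ℤ) : (1 + 2 * ((n ^ 6) ^ a * n ^ 6) * n ^ 2 - 2 * ((n ^ 6) ^ a * n ^ 6) ^ 2 * n ^ 4) ^ 2 =
    (H0 a + C (n ^ 2) * H1 a).eval (n ^ 6) := by
  simp only [H0, H1, eval_add, eval_sub, eval_mul, eval_C, eval_pow, eval_X]
  have e1 : (n ^ 6) ^ (3 * a + 4) = ((n ^ 6) ^ a) ^ 3 * n ^ 24 := by ring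
  have e2 : (n ^ 6) ^ (a + 1) = ((n ^ 6) ^ a) * n ^ 6 := by ring
  have e3 : (n ^ 6) ^ (4 * a + 5) = ((n ^ 6) ^ a) ^ 4 * n ^ 30 := by ring
  rw [e1, e2, e3]
  generalize (n ^ 6) ^ a = u
  ring

end Pool.Agent.Helper12.HeightLB
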