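import Mathlib

set_option autoImplicit false

open Polynomial

namespace Pool.Agent.Helper12.HeightLB

/-- The bound of the problem, for one degree and one pair of constants. -/
def Bound (d : ℕ) (C₁ C₂ : ℝ) : Prop :=
  ∀ f : Polynomial ℤ, f.natDegree = d →
      (f.map (Int.castRingHom ℚ)).Separable →
      ∀ x y : ℤ, y ^ 2 = f.eval x →
        Real.log (max |(x : ℝ)| 1) ≤
          C₁ * Real.log (max ((f.support.sup (fun i => (f.coeff i).natAbs) : ℕ) : ℝ) 1) + C₂

/-- Separability of `F₀ + v F₁` for all but finitely many integers `v`. -/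
lemma finite_bad (F₀ F₁ : ℤ[X])
    (hcop : ∀ z : ℂ, aeval z F₁ = 0 → aeval z F₀ ≠ 0)
    (hW : F₀ * derivative F₁ - derivative F₀ * F₁ ≠ 0) :
    {v : ℤ | ¬ ((F₀ + C v * F₁).map (Int.castRingHom ℚ)).Separable}.Finite := by
  classical
  set W : ℤ[X] := F₀ * derivative F₁ - derivative F₀ * F₁ with hWdef
  have hWm : W.map (Int.castRingHom ℂ) ≠ 0 := by
    intro h
    apply hW
    exact (Polynomial.map_injective _ (RingHom.injective_int _)) (by simpa using h)
  have hfin : ((fun z : ℂ => - (aeval z F₀) / (aeval z F₁)) ''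
      {z : ℂ | z ∈ (W.map (Int.castRingHom ℂ)).roots}).Finite := by
    apply Set.Finite.image
    exact (W.map (Int.castRingHom ℂ)).roots.toFinset.finite_toSet.subset (by intro z hz; simpa using hz)
  apply Set.Finite.of_finite_image (f := fun v : ℤ => (v : ℂ)) _ (by
    intro a _ b _ h
    have h' : (a : ℂ) = (b : ℂ) := h
    exact_mod_cast h')
  refine hfin.subset ?_
  rintro _ ⟨v, hv, rfl⟩
  simp only [Set.mem_setOf_eq] at hv
  -- a common complex root
  have hnc : ¬ IsCoprime ((F₀ + C v * F₁).map (Int.castRingHom ℚ))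
      (derivative ((F₀ + C v * F₁).map (Int.castRingHom ℚ))) := hv
  rw [Polynomial.isCoprime_iff_aeval_ne_zero_of_isAlgClosed ℚ ℂ] at hnc
  push Not at hnc
  obtain ⟨z, hz1, hz2⟩ := hnc
  have e1 : aeval z F₀ + (v : ℂ) * aeval z F₁ = 0 := by
    have := hz1
    rw [Polynomial.aeval_def, Polynomial.eval₂_map] at this
    have h2 : (algebraMap ℚ ℂ).comp (Int.castRingHom ℚ) = algebraMap ℤ ℂ := RingHom.ext_int _ _
    rw [h2, ← Polynomial.aeval_def] at this
    simpa using this
  have e2 : aeval z (derivative F₀) + (v : ℂ) * aeval z (derivative F₁) = 0 := by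
    have := hz2
    rw [Polynomial.derivative_map, Polynomial.aeval_def, Polynomial.eval₂_map] at this
    have h2 : (algebraMap ℚ ℂ).comp (Int.castRingHom ℚ) = algebraMap ℤ ℂ := RingHom.ext_int _ _
    rw [h2, ← Polynomial.aeval_def] at this
    simpa using this
  have hF1 : aeval z F₁ ≠ 0 := by
    intro h
    have := hcop z h
    rw [h] at e1
    simp at e1
    exact this e1
  refine ⟨z, ?_, ?_⟩
  · simp only [Set.mem_setOf_eq]
    rw [Polynomial.mem_roots hWm, Polynomial.IsRoot.def, Polynomial.eval_map]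
    have h2 : Int.castRingHom ℂ = algebraMap ℤ ℂ := RingHom.ext_int _ _
    rw [h2, ← Polynomial.aeval_def, hWdef]
    simp only [map_sub, map_mul]
    linear_combination (aeval z (derivative F₁)) * e1 - (aeval z F₁) * e2
  · simp only
    field_simp
    linear_combination -e1

/-- Asymptotic lower bound for the exponent from a family. -/
lemma exponent_lower (d a b : ℕ) (ha : 1 ≤ a) (hb : 1 ≤ b) (K : ℝ) (hK : 1 ≤ K)
    (fam : ∀ N : ℕ, ∃ n : ℕ, N ≤ n ∧ 1 ≤ n ∧ ∃ (f : ℤ[X]) (x y : ℤ), f.natDegree = d ∧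
      (f.map (Int.castRingHom ℚ)).Separable ∧ (∀ i, ((|f.coeff i| : ℤ) : ℝ) ≤ K * (n : ℝ) ^ a) ∧
      y ^ 2 = f.eval x ∧ (n : ℝ) ^ b ≤ K * |(x : ℝ)|)
    (C₁ C₂ : ℝ) (h : Bound d C₁ C₂) : (b : ℝ) / a ≤ C₁ := by
  by_contra hlt
  push Not at hlt
  have haR : (0 : ℝ) < a := by exact_mod_cast ha
  have hbR : (0 : ℝ) < b := by exact_mod_cast hb
  have hKpos : 0 < K := by linarith
  -- the positive slope
  obtain ⟨C, hC0, hC1, hCb⟩ : ∃ C : ℝ, 0 ≤ C ∧ C₁ ≤ C ∧ C * a < b := by
    rcases le_total C₁ 0 with h0 | h0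
    · exact ⟨0, le_refl _, h0, by simpa using hbR⟩
    · exact ⟨C₁, h0, le_refl _, by rwa [lt_div_iff₀ haR] at hlt⟩
  set T : ℝ := Real.log K + C * Real.log K + C₂ with hT
  obtain ⟨N, hN⟩ := exists_nat_gt (Real.exp (T / (b - C * a)))
  obtain ⟨n, hNn, hn1, f, x, y, hdeg, hsep, hcoef, hxy, hbig⟩ := fam N
  have hn : (1 : ℝ) ≤ n := by exact_mod_cast hn1
  have hnpos : (0 : ℝ) < n := by linarith
  have hlogn : 0 ≤ Real.log n := Real.log_nonneg hn
  have key := h f hdeg hsep x y hxy
  set H : ℝ := max ((f.support.sup (fun i => (f.coeff i).natAbs) : ℕ) : ℝ) 1 with hH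
  have hH1 : 1 ≤ H := le_max_right _ _
  have hHle : H ≤ K * (n : ℝ) ^ a := by
    apply max_le
    · have : (f.support.sup (fun i => (f.coeff i).natAbs) : ℕ) ≤ ⌊K * (n : ℝ) ^ a⌋₊ := by
        apply Finset.sup_le
        intro i _
        apply Nat.le_floor
        have h1 := hcoef i
        have h2 : (((f.coeff i).natAbs : ℕ) : ℝ) = ((|f.coeff i| : ℤ) : ℝ) := by
          rw [← Int.natCast_natAbs]; simp
        rw [h2]; exact h1
      calc ((f.support.sup (fun i => (f.coeff i).natAbs) : ℕ) : ℝ) ≤ (⌊K * (n : ℝ) ^ a⌋₊ : ℝ) := by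
            exact_mod_cast this
        _ ≤ K * (n : ℝ) ^ a := Nat.floor_le (by positivity)
    · have : (1 : ℝ) ≤ (n : ℝ) ^ a := one_le_pow₀ hn
      nlinarith
  have hlogH : Real.log H ≤ Real.log K + a * Real.log n := by
    calc Real.log H ≤ Real.log (K * (n : ℝ) ^ a) := Real.log_le_log (by linarith) hHle
      _ = Real.log K + a * Real.log n := by
        rw [Real.log_mul (by positivity) (by positivity), Real.log_pow]
  have hlogH0 : 0 ≤ Real.log H := Real.log_nonneg hH1
  have hxpos : 0 < |(x : ℝ)| := by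
    by_contra hneg
    have h0 : |(x : ℝ)| = 0 := le_antisymm (not_lt.mp hneg) (abs_nonneg _)
    rw [h0, mul_zero] at hbig
    have : (0 : ℝ) < (n : ℝ) ^ b := by positivity
    linarith
  have hlogx : b * Real.log n ≤ Real.log K + Real.log (max |(x : ℝ)| 1) := by
    have h1 : (n : ℝ) ^ b ≤ K * max |(x : ℝ)| 1 :=
      hbig.trans (mul_le_mul_of_nonneg_left (le_max_left _ _) hKpos.le)
    have h2 := Real.log_le_log (by positivity) h1
    rw [Real.log_pow, Real.log_mul (by positivity) (by positivity)] at h2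
    exact h2
  have h3 : C₁ * Real.log H ≤ C * (Real.log K + a * Real.log n) :=
    calc C₁ * Real.log H ≤ C * Real.log H := mul_le_mul_of_nonneg_right hC1 hlogH0
      _ ≤ C * (Real.log K + a * Real.log n) := mul_le_mul_of_nonneg_left hlogH hC0
  have h4 : (b - C * a) * Real.log n ≤ T := by
    rw [hT]; nlinarith
  have h5 : Real.log n ≤ T / (b - C * a) := by
    rw [le_div_iff₀ (by linarith)]; linarith
  have h6 : (n : ℝ) ≤ Real.exp (T / (b - C * a)) := by
    rw [← Real.exp_log hnpos]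
    exact Real.exp_le_exp.mpr h5
  have h7 : (N : ℝ) ≤ n := by exact_mod_cast hNn
  linarith

end Pool.Agent.Helper12.HeightLB
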