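import Pool.Agent.Helper12.HeightLB

set_option autoImplicit false

open Polynomial

namespace Pool.Agent.Helper12.HeightLB

/-- The bound of the problem restricted to monic polynomials. -/
def BoundM (d : ℕ) (C₁ C₂ : ℝ) : Prop :=
  ∀ f : Polynomial ℤ, f.Monic → f.natDegree = d →
      (f.map (Int.castRingHom ℚ)).Separable →
      ∀ x y : ℤ, y ^ 2 = f.eval x →
        Real.log (max |(x : ℝ)| 1) ≤
          C₁ * Real.log (max ((f.support.sup (fun i => (f.coeff i).natAbs) : ℕ) : ℝ) 1) + C₂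

/-- Asymptotic lower bound for the exponent from a family. -/
lemma exponent_lower_monic (d a b : ℕ) (ha : 1 ≤ a) (hb : 1 ≤ b) (K : ℝ) (hK : 1 ≤ K)
    (fam : ∀ N : ℕ, ∃ n : ℕ, N ≤ n ∧ 1 ≤ n ∧ ∃ (f : ℤ[X]) (x y : ℤ), f.Monic ∧ f.natDegree = d ∧
      (f.map (Int.castRingHom ℚ)).Separable ∧ (∀ i, ((|f.coeff i| : ℤ) : ℝ) ≤ K * (n : ℝ) ^ a) ∧
      y ^ 2 = f.eval x ∧ (n : ℝ) ^ b ≤ K * |(x : ℝ)|)
    (C₁ C₂ : ℝ) (h : BoundM d C₁ C₂) : (b : ℝ) / a ≤ C₁ := by
  by_contra hlt
  push Not at hlt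
  have haR : (0 : ℝ) < a := by exact_mod_cast ha
  have hbR : (0 : ℝ) < b := by exact_mod_cast hb
  have hKpos : 0 < K := by linarith
  -- the positive slope
  obtain ⟨C, hC0, hC1, hCb⟩ : ∃ C : ℝ, 0 ≤ C ∧ C₁ ≤ C ∧ C * a < b := by
    rcases le_total C₁ 0 with h0 | h0
    · exact ⟨0, le_refl _, h0, by simpa using hbR⟩
    · exact ⟨C₁, h0, le_refl _, by rwa [lt_div_iff₀ haR] at hlt⟩
  set T : ℝ := Real.log K + C * Real.log K + C₂ with hT
  obtain ⟨N, hN⟩ := exists_nat_gt (Real.exp (T / (b - C * a)))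
  obtain ⟨n, hNn, hn1, f, x, y, hmon, hdeg, hsep, hcoef, hxy, hbig⟩ := fam N
  have hn : (1 : ℝ) ≤ n := by exact_mod_cast hn1
  have hnpos : (0 : ℝ) < n := by linarith
  have hlogn : 0 ≤ Real.log n := Real.log_nonneg hn
  have key := h f hmon hdeg hsep x y hxy
  set H : ℝ := max ((f.support.sup (fun i => (f.coeff i).natAbs) : ℕ) : ℝ) 1 with hH
  have hH1 : 1 ≤ H := le_max_right _ _
  have hHle : H ≤ K * (n : ℝ) ^ a := by
    apply max_le
    · have : (f.support.sup (fun i => (f.coeff i).natAbs) : ℕ) ≤ ⌊K * (n : ℝ) ^ a⌋₊ := by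
        apply Finset.sup_le
        intro i _
        apply Nat.le_floor
        have h1 := hcoef i
        have h2 : (((f.coeff i).natAbs : ℕ) : ℝ) = ((|f.coeff i| : ℤ) : ℝ) := by
          rw [← Int.natCast_natAbs]; simp
        rw [h2]; exact h1
      calc ((f.support.sup (fun i => (f.coeff i).natAbs) : ℕ) : ℝ) ≤ (⌊K * (n : ℝ) ^ a⌋₊ : ℝ) := by
            exact_mod_cast this
        _ ≤ K * (n : ℝ) ^ a := Nat.floor_le (by positivity)
    · have : (1 : ℝ) ≤ (n : ℝ) ^ a := one_le_pow₀ hn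
      nlinarith
  have hlogH : Real.log H ≤ Real.log K + a * Real.log n := by
    calc Real.log H ≤ Real.log (K * (n : ℝ) ^ a) := Real.log_le_log (by linarith) hHle
      _ = Real.log K + a * Real.log n := by
        rw [Real.log_mul (by positivity) (by positivity), Real.log_pow]
  have hlogH0 : 0 ≤ Real.log H := Real.log_nonneg hH1
  have hxpos : 0 < |(x : ℝ)| := by
    by_contra hneg
    have h0 : |(x : ℝ)| = 0 := le_antisymm (not_lt.mp hneg) (abs_nonneg _)
    rw [h0, mul_zero] at hbig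
    have : (0 : ℝ) < (n : ℝ) ^ b := by positivity
    linarith
  have hlogx : b * Real.log n ≤ Real.log K + Real.log (max |(x : ℝ)| 1) := by
    have h1 : (n : ℝ) ^ b ≤ K * max |(x : ℝ)| 1 :=
      hbig.trans (mul_le_mul_of_nonneg_left (le_max_left _ _) hKpos.le)
    have h2 := Real.log_le_log (by positivity) h1
    rw [Real.log_pow, Real.log_mul (by positivity) (by positivity)] at h2
    exact h2
  have h3 : C₁ * Real.log H ≤ C * (Real.log K + a * Real.log n) :=
    calc C₁ * Real.log H ≤ C * Real.log H := mul_le_mul_of_nonneg_right hC1 hlogH0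
      _ ≤ C * (Real.log K + a * Real.log n) := mul_le_mul_of_nonneg_left hlogH hC0
  have h4 : (b - C * a) * Real.log n ≤ T := by
    rw [hT]; nlinarith
  have h5 : Real.log n ≤ T / (b - C * a) := by
    rw [le_div_iff₀ (by linarith)]; linarith
  have h6 : (n : ℝ) ≤ Real.exp (T / (b - C * a)) := by
    rw [← Real.exp_log hnpos]
    exact Real.exp_le_exp.mpr h5
  have h7 : (N : ℝ) ≤ n := by exact_mod_cast hNn
  linarith

end Pool.Agent.Helper12.HeightLB
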