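import Mathlib

set_option autoImplicit false

namespace Pool.Agent.Helper12.IC

/-- `Rep n k`: the number `n` is the value of an arithmetic expression in `+`, `*`
with exactly `k` ones. -/
inductive Rep : ℕ → ℕ → Prop
  | one : Rep 1 1
  | add {a i b j : ℕ} : Rep a i → Rep b j → Rep (a + b) (i + j)
  | mul {a i b j : ℕ} : Rep a i → Rep b j → Rep (a * b) (i + j)

lemma Rep.pos {n k : ℕ} (h : Rep n k) : 1 ≤ n ∧ 1 ≤ k := by
  induction h with
  | one => exact ⟨le_refl _, le_refl _⟩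
  | add _ _ h1 h2 => omega
  | mul _ _ h1 h2 =>
    refine ⟨?_, by omega⟩
    exact Nat.mul_pos h1.1 h2.1

lemma Rep.two {n k : ℕ} (h : Rep n k) (hn : 2 ≤ n) : 2 ≤ k := by
  cases h with
  | one => omega
  | add h1 h2 => have := h1.pos; have := h2.pos; omega
  | mul h1 h2 => have := h1.pos; have := h2.pos; omega

lemma Rep.three {n k : ℕ} (h : Rep n k) (hn : 3 ≤ n) : 3 ≤ k := by
  cases h with
  | one => omega
  | @add a i b j h1 h2 =>
    have p1 := h1.pos
    have p2 := h2.pos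
    rcases Nat.lt_or_ge a 2 with ha | ha
    · have := h2.two (by omega)
      omega
    · have := h1.two ha
      omega
  | @mul a i b j h1 h2 =>
    have p1 := h1.pos
    have p2 := h2.pos
    rcases Nat.lt_or_ge a 2 with ha | ha
    · have : a = 1 := by omega
      subst this
      have := h2.two (by omega)
      omega
    · have := h1.two ha
      omega

lemma rep_self {n : ℕ} (hn : 1 ≤ n) : Rep n n := by
  induction n, hn using Nat.le_induction with
  | base => exact Rep.one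
  | succ n _ ih => exact Rep.add ih Rep.one

/-- integer complexity -/
noncomputable def cx (n : ℕ) : ℕ := sInf {k | Rep n k}

lemma rep_cx {n : ℕ} (hn : 1 ≤ n) : Rep n (cx n) :=
  Nat.sInf_mem (s := {k | Rep n k}) ⟨n, rep_self hn⟩

lemma cx_le {n k : ℕ} (h : Rep n k) : cx n ≤ k := Nat.sInf_le h

lemma cx_add_le {a b : ℕ} (ha : 1 ≤ a) (hb : 1 ≤ b) : cx (a + b) ≤ cx a + cx b :=
  cx_le (Rep.add (rep_cx ha) (rep_cx hb))

lemma cx_mul_le {a b : ℕ} (ha : 1 ≤ a) (hb : 1 ≤ b) : cx (a * b) ≤ cx a + cx b :=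
  cx_le (Rep.mul (rep_cx ha) (rep_cx hb))

/-- `n` is of additive type -/
def AddT (n : ℕ) : Prop := ∃ a b : ℕ, 1 ≤ b ∧ b ≤ a ∧ n = a + b ∧ cx n = cx a + cx b

lemma structure_thm (n : ℕ) (hn : 2 ≤ n) :
    AddT n ∨ ∃ a m : ℕ, AddT a ∧ 2 ≤ a ∧ 2 ≤ m ∧ n = a * m ∧ cx n = cx a + cx m := by
  induction n using Nat.strong_induction_on with
  | _ n ih =>
    have hr := rep_cx (n := n) (by omega)
    generalize hk : cx n = k at hr
    cases hr with
    | one => omega
    | @add a i b j h1 h2 =>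
      left
      have p1 := h1.pos
      have p2 := h2.pos
      have c1 := cx_le h1
      have c2 := cx_le h2
      have c3 := cx_add_le p1.1 p2.1
      rcases le_total b a with h | h
      · exact ⟨a, b, p2.1, h, rfl, by omega⟩
      · exact ⟨b, a, p1.1, h, by omega, by omega⟩
    | @mul a i b j h1 h2 =>
      right
      have p1 := h1.pos
      have p2 := h2.pos
      have c1 := cx_le h1
      have c2 := cx_le h2
      have c3 := cx_mul_le p1.1 p2.1
      have ha : 2 ≤ a := by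
        by_contra hcon
        have : a = 1 := by omega
        subst this
        rw [one_mul] at hk c3
        omega
      have hb : 2 ≤ b := by
        by_contra hcon
        have : b = 1 := by omega
        subst this
        rw [mul_one] at hk c3
        omega
      have hlt : a < a * b := by nlinarith
      rcases ih a hlt ha with h | ⟨a', m', hA, ha', hm', hprod, hcx⟩
      · exact ⟨a, b, h, ha, hb, rfl, by omega⟩
      · refine ⟨a', m' * b, hA, ha', by nlinarith, by rw [hprod, mul_assoc], ?_⟩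
        have c4 := cx_mul_le (a := m') (b := b) (by omega) p2.1
        have c5 := cx_mul_le (a := a') (b := m' * b) (by omega) (by nlinarith)
        rw [← mul_assoc, ← hprod] at c5
        omega

/-- comparison lemma -/
lemma sum_le_of_cover {α : Type*} [DecidableEq α] (S : Finset ℕ) (T : Finset α) (w : ℕ → ℝ)
    (v : α → ℝ) (φ : α → ℕ) (hv : ∀ p ∈ T, 0 ≤ v p)
    (h : ∀ n ∈ S, ∃ p ∈ T, φ p = n ∧ w n ≤ v p) :
    ∑ n ∈ S, w n ≤ ∑ p ∈ T, v p := by
  classical
  rcases S.eq_empty_or_nonempty with hS | ⟨n0, hn0⟩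
  · subst hS
    simpa using Finset.sum_nonneg hv
  have : Nonempty α := ⟨(h n0 hn0).choose⟩
  choose! f hf using h
  have hinj : Set.InjOn f S := by
    intro a ha b hb hab
    have h1 := (hf a ha).2.1
    have h2 := (hf b hb).2.1
    rw [← h1, ← h2, hab]
  calc ∑ n ∈ S, w n ≤ ∑ n ∈ S, v (f n) := Finset.sum_le_sum (fun n hn => (hf n hn).2.2)
    _ = ∑ p ∈ S.image f, v p := (Finset.sum_image hinj).symm
    _ ≤ ∑ p ∈ T, v p := by
      apply Finset.sum_le_sum_of_subset_of_nonneg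
      · intro p hp
        rw [Finset.mem_image] at hp
        obtain ⟨n, hn, rfl⟩ := hp
        exact (hf n hn).1
      · intro p hp _
        exact hv p hp

/-- the weight `n^t * X^cx n` -/
noncomputable def w (t : ℕ) (X : ℝ) (n : ℕ) : ℝ := (n : ℝ) ^ t * X ^ cx n

section general

variable {t : ℕ} {X : ℝ}

lemma w_nonneg (hX : 0 < X) (n : ℕ) : 0 ≤ w t X n := by
  unfold w; positivity

lemma w_mul {a b : ℕ} (h : cx (a * b) = cx a + cx b) : w t X (a * b) = w t X a * w t X b := by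
  unfold w; rw [h]; push_cast; ring

lemma w_small (hX : 0 < X) (hX1 : X ≤ 1) {n m : ℕ} (h : m ≤ cx n) :
    w t X n ≤ (n : ℝ) ^ t * X ^ m := by
  unfold w
  apply mul_le_mul_of_nonneg_left _ (by positivity)
  exact pow_le_pow_of_le_one hX.le hX1 h

lemma cx_one_ge : 1 ≤ cx 1 := (rep_cx le_rfl).pos.2
lemma cx_ge_two {n : ℕ} (hn : 2 ≤ n) : 2 ≤ cx n := (rep_cx (by omega)).two hn
lemma cx_ge_three {n : ℕ} (hn : 3 ≤ n) : 3 ≤ cx n := (rep_cx (by omega)).three hn

lemma w_add_one (hX : 0 < X) (hX1 : X ≤ 1) {a : ℕ} (ha : 3 ≤ a) (h : cx (a + 1) = cx a + cx 1) :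
    w t X (a + 1) ≤ ((4 / 3 : ℝ) ^ t * X) * w t X a := by
  unfold w
  rw [h, pow_add]
  have h1 : X ^ cx 1 ≤ X := by
    calc X ^ cx 1 ≤ X ^ 1 := pow_le_pow_of_le_one hX.le hX1 cx_one_ge
      _ = X := pow_one _
  have h2 : ((a + 1 : ℕ) : ℝ) ≤ (4 / 3) * a := by
    push_cast
    have : (3 : ℝ) ≤ a := by exact_mod_cast ha
    linarith
  have h3 : ((a + 1 : ℕ) : ℝ) ^ t ≤ ((4 / 3) * a) ^ t :=
    pow_le_pow_left₀ (by positivity) h2 t
  calc ((a + 1 : ℕ) : ℝ) ^ t * (X ^ cx a * X ^ cx 1)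
      ≤ ((4 / 3) * a) ^ t * (X ^ cx a * X) := by gcongr
    _ = ((4 / 3 : ℝ) ^ t * X) * ((a : ℝ) ^ t * X ^ cx a) := by rw [mul_pow]; ring

lemma w_add_two (hX : 0 < X) (hX1 : X ≤ 1) {a : ℕ} (ha : 2 ≤ a) (h : cx (a + 2) = cx a + cx 2) :
    w t X (a + 2) ≤ ((2 : ℝ) ^ t * X ^ 2) * w t X a := by
  unfold w
  rw [h, pow_add]
  have h1 : X ^ cx 2 ≤ X ^ 2 := pow_le_pow_of_le_one hX.le hX1 (cx_ge_two le_rfl)
  have h2 : ((a + 2 : ℕ) : ℝ) ≤ 2 * a := by
    push_cast
    have : (2 : ℝ) ≤ a := by exact_mod_cast ha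
    linarith
  have h3 : ((a + 2 : ℕ) : ℝ) ^ t ≤ (2 * a) ^ t :=
    pow_le_pow_left₀ (by positivity) h2 t
  calc ((a + 2 : ℕ) : ℝ) ^ t * (X ^ cx a * X ^ cx 2)
      ≤ (2 * a) ^ t * (X ^ cx a * X ^ 2) := by gcongr
    _ = ((2 : ℝ) ^ t * X ^ 2) * ((a : ℝ) ^ t * X ^ cx a) := by rw [mul_pow]; ring

lemma w_add_ge (hX : 0 < X) {a b : ℕ} (ha : 3 ≤ a) (hb : 3 ≤ b)
    (h : cx (a + b) = cx a + cx b) :
    w t X (a + b) ≤ (2 / 3 : ℝ) ^ t * (w t X a * w t X b) := by
  unfold w
  rw [h, pow_add]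
  have h2 : ((a + b : ℕ) : ℝ) ≤ (2 / 3) * (a * b) := by
    push_cast
    have h3 : (3 : ℝ) ≤ a := by exact_mod_cast ha
    have h4 : (3 : ℝ) ≤ b := by exact_mod_cast hb
    nlinarith
  have h3 : ((a + b : ℕ) : ℝ) ^ t ≤ ((2 / 3) * (a * b)) ^ t :=
    pow_le_pow_left₀ (by positivity) h2 t
  calc ((a + b : ℕ) : ℝ) ^ t * (X ^ cx a * X ^ cx b)
      ≤ ((2 / 3) * (a * b)) ^ t * (X ^ cx a * X ^ cx b) := by gcongr
    _ = (2 / 3 : ℝ) ^ t * (((a : ℝ) ^ t * X ^ cx a) * ((b : ℝ) ^ t * X ^ cx b)) := by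
        rw [mul_pow, mul_pow]; ring

/-- partial sums -/
noncomputable def G (t : ℕ) (X : ℝ) (N : ℕ) : ℝ := ∑ n ∈ Finset.Icc 2 N, w t X n

lemma G_nonneg (hX : 0 < X) (N : ℕ) : 0 ≤ G t X N :=
  Finset.sum_nonneg (fun n _ => w_nonneg hX n)

lemma G_succ {M : ℕ} (hM : 1 ≤ M) : G t X (M + 1) = G t X M + w t X (M + 1) := by
  unfold G
  exact Finset.sum_Icc_succ_top (by omega) _

open Classical in
/-- bound for the additive-type part -/
lemma addPart (hX : 0 < X) (hX1 : X ≤ 1) (N : ℕ) :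
    ∑ n ∈ (Finset.Icc 2 (N + 1)).filter AddT, w t X n ≤
      ((2 : ℝ) ^ t * X ^ 2 + (3 : ℝ) ^ t * X ^ 3) + ((4 / 3 : ℝ) ^ t * X) * G t X N
        + ((2 : ℝ) ^ t * X ^ 2) * G t X N + (2 / 3 : ℝ) ^ t * (G t X N * G t X N) := by
  -- cover by a sum type
  let T : Finset (ℕ ⊕ (ℕ ⊕ (ℕ ⊕ (ℕ × ℕ)))) :=
    Finset.disjSum ({2, 3} : Finset ℕ) (Finset.disjSum (Finset.Icc 2 N)
      (Finset.disjSum (Finset.Icc 2 N) (Finset.Icc 2 N ×ˢ Finset.Icc 2 N)))
  let v : ℕ ⊕ (ℕ ⊕ (ℕ ⊕ (ℕ × ℕ))) → ℝ :=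
    Sum.elim (fun n => (n : ℝ) ^ t * X ^ n) (Sum.elim (fun a => ((4 / 3 : ℝ) ^ t * X) * w t X a)
      (Sum.elim (fun a => ((2 : ℝ) ^ t * X ^ 2) * w t X a)
        (fun p => (2 / 3 : ℝ) ^ t * (w t X p.1 * w t X p.2))))
  let φ : ℕ ⊕ (ℕ ⊕ (ℕ ⊕ (ℕ × ℕ))) → ℕ :=
    Sum.elim (fun n => n) (Sum.elim (fun a => a + 1) (Sum.elim (fun a => a + 2)
      (fun p => p.1 + p.2)))
  have hv : ∀ p ∈ T, 0 ≤ v p := by
    intro p _
    rcases p with n | a | a | p
    · simp only [v, Sum.elim_inl]; positivity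
    · simp only [v, Sum.elim_inl, Sum.elim_inr]
      exact mul_nonneg (mul_nonneg (pow_nonneg (by norm_num) _) hX.le) (w_nonneg hX a)
    · simp only [v, Sum.elim_inl, Sum.elim_inr]
      exact mul_nonneg (mul_nonneg (pow_nonneg (by norm_num) _) (pow_nonneg hX.le _))
        (w_nonneg hX a)
    · simp only [v, Sum.elim_inr]
      exact mul_nonneg (pow_nonneg (by norm_num) _) (mul_nonneg (w_nonneg hX _) (w_nonneg hX _))
  have hcov : ∀ n ∈ (Finset.Icc 2 (N + 1)).filter AddT, ∃ p ∈ T, φ p = n ∧ w t X n ≤ v p := by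
    intro n hn
    rw [Finset.mem_filter, Finset.mem_Icc] at hn
    obtain ⟨⟨hn2, hnN⟩, a, b, hb1, hba, hab, hcx⟩ := hn
    rcases Nat.lt_or_ge n 4 with h4 | h4
    · refine ⟨Sum.inl n, ?_, rfl, ?_⟩
      · simp only [T, Finset.inl_mem_disjSum, Finset.mem_insert, Finset.mem_singleton]
        omega
      · simp only [v, Sum.elim_inl]
        apply w_small hX hX1
        have : n = 2 ∨ n = 3 := by omega
        rcases this with rfl | rfl
        · exact cx_ge_two le_rfl
        · exact cx_ge_three le_rfl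
    · rcases Nat.lt_or_ge b 2 with hb2 | hb2
      · have hb : b = 1 := by omega
        subst hb
        subst hab
        refine ⟨Sum.inr (Sum.inl a), ?_, rfl, ?_⟩
        · simp only [T, Finset.inl_mem_disjSum, Finset.inr_mem_disjSum, Finset.mem_Icc]
          omega
        · simp only [v, Sum.elim_inl, Sum.elim_inr]
          exact w_add_one hX hX1 (by omega) hcx
      · rcases Nat.lt_or_ge b 3 with hb3 | hb3
        · have hb : b = 2 := by omega
          subst hb
          subst hab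
          refine ⟨Sum.inr (Sum.inr (Sum.inl a)), ?_, rfl, ?_⟩
          · simp only [T, Finset.inl_mem_disjSum, Finset.inr_mem_disjSum, Finset.mem_Icc]
            omega
          · simp only [v, Sum.elim_inl, Sum.elim_inr]
            exact w_add_two hX hX1 (by omega) hcx
        · subst hab
          refine ⟨Sum.inr (Sum.inr (Sum.inr (a, b))), ?_, rfl, ?_⟩
          · simp only [T, Finset.inr_mem_disjSum, Finset.mem_product, Finset.mem_Icc]
            omega
          · simp only [v, Sum.elim_inr]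
            exact w_add_ge hX (by omega) hb3 hcx
  refine (sum_le_of_cover _ T (w t X) v φ hv hcov).trans (le_of_eq ?_)
  simp only [T, v, Finset.sum_disjSum, Sum.elim_inl, Sum.elim_inr, Finset.sum_product]
  rw [Finset.sum_pair (by norm_num)]
  unfold G
  simp only [← Finset.mul_sum, ← Finset.sum_mul]
  push_cast
  ring

lemma arith_aux (p c1 c2 c3 g : ℝ) (h1 : 0 ≤ c1) (h2 : 0 ≤ c2) (h3 : 0 ≤ c3) (hg0 : 0 ≤ g)
    (hg1 : g ≤ 1) (hc : p + c1 + c2 + c3 ≤ 1 / 2) :
    p + c1 * g + c2 * g + c3 * (g * g) ≤ 1 / 2 := by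
  have hgg : g * g ≤ 1 := by nlinarith
  have e1 : c1 * g ≤ c1 := mul_le_of_le_one_right h1 hg1
  have e2 : c2 * g ≤ c2 := mul_le_of_le_one_right h2 hg1
  have e3 : c3 * (g * g) ≤ c3 := mul_le_of_le_one_right h3 hgg
  linarith

open Classical in
theorem G_le_one (hX : 0 < X) (hX1 : X ≤ 1)
    (hc : ((2 : ℝ) ^ t * X ^ 2 + (3 : ℝ) ^ t * X ^ 3) + ((4 / 3 : ℝ) ^ t * X)
        + ((2 : ℝ) ^ t * X ^ 2) + (2 / 3 : ℝ) ^ t ≤ 1 / 2) (N : ℕ) : G t X N ≤ 1 := by
  induction N with
  | zero => simp [G]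
  | succ N ih =>
    have h0 := G_nonneg (t := t) hX N
    have hA : ∑ n ∈ (Finset.Icc 2 (N + 1)).filter AddT, w t X n ≤ 1 / 2 := by
      refine (addPart hX hX1 N).trans ?_
      exact arith_aux _ _ _ _ _ (by positivity) (by positivity) (by positivity) h0 ih hc
    have hM : ∑ n ∈ (Finset.Icc 2 (N + 1)).filter (fun n => ¬ AddT n), w t X n ≤
        (∑ n ∈ (Finset.Icc 2 (N + 1)).filter AddT, w t X n) * G t X N := by
      have := sum_le_of_cover ((Finset.Icc 2 (N + 1)).filter (fun n => ¬ AddT n))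
        (((Finset.Icc 2 (N + 1)).filter AddT) ×ˢ (Finset.Icc 2 N)) (w t X)
        (fun p => w t X p.1 * w t X p.2) (fun p => p.1 * p.2)
        (fun p _ => mul_nonneg (w_nonneg hX _) (w_nonneg hX _)) ?_
      · refine this.trans (le_of_eq ?_)
        rw [Finset.sum_product, Finset.sum_mul]
        unfold G
        simp only [Finset.mul_sum]
      · intro n hn
        rw [Finset.mem_filter, Finset.mem_Icc] at hn
        obtain ⟨⟨hn2, hnN⟩, hnot⟩ := hn
        rcases structure_thm n hn2 with h | ⟨a, m, hA, ha, hm, hprod, hcx⟩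
        · exact absurd h hnot
        · refine ⟨(a, m), ?_, hprod.symm, ?_⟩
          · simp only [Finset.mem_product, Finset.mem_filter, Finset.mem_Icc]
            refine ⟨⟨⟨ha, ?_⟩, hA⟩, hm, ?_⟩ <;> nlinarith
          · subst hprod
            exact (w_mul hcx).le
    have hsplit : G t X (N + 1) = (∑ n ∈ (Finset.Icc 2 (N + 1)).filter AddT, w t X n) +
        ∑ n ∈ (Finset.Icc 2 (N + 1)).filter (fun n => ¬ AddT n), w t X n := by
      unfold G
      rw [Finset.sum_filter_add_sum_filter_not]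
    rw [hsplit]
    have hA0 : 0 ≤ ∑ n ∈ (Finset.Icc 2 (N + 1)).filter AddT, w t X n :=
      Finset.sum_nonneg (fun n _ => w_nonneg hX n)
    nlinarith

end general

/-- the parameter -/
noncomputable def X0 : ℝ := (3 / 4) * (1 / 3) ^ 30

lemma X0_pos : 0 < X0 := by unfold X0; positivity
lemma X0_le_one : X0 ≤ 1 := by unfold X0; norm_num

lemma const_bound : ((2 : ℝ) ^ 90 * X0 ^ 2 + (3 : ℝ) ^ 90 * X0 ^ 3) + ((4 / 3 : ℝ) ^ 90 * X0)
        + ((2 : ℝ) ^ 90 * X0 ^ 2) + (2 / 3 : ℝ) ^ 90 ≤ 1 / 2 := by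
  unfold X0
  norm_num

lemma log_four_thirds : Real.log (4 / 3) ≤ (27 / 100) * Real.log 3 := by
  have h : Real.log ((4 / 3 : ℝ) ^ 100) ≤ Real.log ((3 : ℝ) ^ 27) :=
    Real.log_le_log (by positivity) (by norm_num)
  rw [Real.log_pow, Real.log_pow] at h
  push_cast at h
  linarith

lemma log_X : Real.log X0 = - (Real.log (4 / 3) + 30 * Real.log 3) := by
  unfold X0
  rw [Real.log_mul (by norm_num) (by positivity), Real.log_pow]
  have h1 : Real.log (3 / 4) = - Real.log (4 / 3) := by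
    rw [← Real.log_inv]; norm_num
  have h2 : Real.log (1 / 3) = - Real.log 3 := by
    rw [← Real.log_inv]; norm_num
  rw [h1, h2]
  push_cast
  ring

/-- If `n` has complexity at most `(3 + 1/200) log_3 n`, its weight is at least `1 / n`. -/
lemma w_ge {n k : ℕ} (hn : 2 ≤ n) (hr : Rep n k)
    (hk : (k : ℝ) ≤ (3 + 1 / 200) * Real.logb 3 n) : 1 / (n : ℝ) ≤ w 90 X0 n := by
  have hn0 : (0 : ℝ) < n := by exact_mod_cast (by omega : 0 < n)
  have hw : 0 < w 90 X0 n := by
    unfold w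
    have := X0_pos
    positivity
  have hlog3 : 0 < Real.log 3 := Real.log_pos (by norm_num)
  have hlogn : 0 ≤ Real.log n := Real.log_nonneg (by exact_mod_cast (by omega : 1 ≤ n))
  rw [← Real.log_le_log_iff (by positivity) hw]
  have e1 : Real.log (1 / (n : ℝ)) = - Real.log n := by
    rw [← Real.log_inv]; norm_num
  have e2 : Real.log (w 90 X0 n) = 90 * Real.log n + (cx n : ℝ) * Real.log X0 := by
    unfold w
    rw [Real.log_mul (by positivity) (pow_ne_zero _ X0_pos.ne'), Real.log_pow, Real.log_pow]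
    push_cast
    ring
  rw [e1, e2, log_X]
  have hc : (cx n : ℝ) ≤ (3 + 1 / 200) * Real.logb 3 n := by
    have : (cx n : ℝ) ≤ (k : ℝ) := by exact_mod_cast cx_le hr
    linarith
  have h43 := log_four_thirds
  have h5 : Real.log (4 / 3) + 30 * Real.log 3 ≤ (3027 / 100) * Real.log 3 := by linarith
  have hc0 : (0 : ℝ) ≤ cx n := by positivity
  have h6 : (cx n : ℝ) * (Real.log (4 / 3) + 30 * Real.log 3) ≤
      ((3 + 1 / 200) * Real.logb 3 n) * ((3027 / 100) * Real.log 3) := by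
    have hpos : 0 ≤ Real.log (4 / 3) + 30 * Real.log 3 := by
      have : 0 ≤ Real.log (4 / 3) := Real.log_nonneg (by norm_num)
      positivity
    apply mul_le_mul hc h5 hpos (le_trans hc0 hc)
  have h7 : ((3 + 1 / 200) * Real.logb 3 n) * ((3027 / 100) * Real.log 3) =
      ((3 + 1 / 200) * (3027 / 100)) * Real.log n := by
    unfold Real.logb
    field_simp
  rw [h7] at h6
  have h8 : ((3 + 1 / 200 : ℝ) * (3027 / 100)) * Real.log n ≤ 91 * Real.log n := by
    apply mul_le_mul_of_nonneg_right (by norm_num) hlogn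
  linarith

theorem main_real : ∀ N : ℕ, ∃ n : ℕ, N < n ∧ ∀ k : ℕ, Rep n k →
    (3 + 1 / 200 : ℝ) * Real.logb 3 (n : ℝ) ≤ (k : ℝ) := by
  intro N
  by_contra hcon
  push Not at hcon
  have key : ∀ n : ℕ, N < n → 2 ≤ n → 1 / (n : ℝ) ≤ w 90 X0 n := by
    intro n hn hn2
    obtain ⟨k, hr, hk⟩ := hcon n hn
    exact w_ge hn2 hr hk.le
  -- bound for harmonic sums
  have hsum : ∀ M : ℕ, ∑ i ∈ Finset.range M, (1 / ((i : ℝ) + 1)) ≤
      ∑ i ∈ Finset.range (N + 1), (1 / ((i : ℝ) + 1)) + G 90 X0 M := by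
    intro M
    induction M with
    | zero =>
      have := G_nonneg (t := 90) X0_pos 0
      have h2 : 0 ≤ ∑ i ∈ Finset.range (N + 1), (1 / ((i : ℝ) + 1)) :=
        Finset.sum_nonneg (fun i _ => by positivity)
      simpa using add_nonneg h2 this
    | succ M ih =>
      rcases Nat.lt_or_ge M (N + 1) with h | h
      · have h1 : ∑ i ∈ Finset.range (M + 1), (1 / ((i : ℝ) + 1)) ≤
            ∑ i ∈ Finset.range (N + 1), (1 / ((i : ℝ) + 1)) := by
          apply Finset.sum_le_sum_of_subset_of_nonneg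
          · intro i hi
            rw [Finset.mem_range] at hi ⊢
            omega
          · intro i _ _; positivity
        have := G_nonneg (t := 90) X0_pos (M + 1)
        linarith
      · rw [Finset.sum_range_succ, G_succ (by omega)]
        have h1 := key (M + 1) (by omega) (by omega)
        push_cast at h1
        linarith
  have hdiv := Real.tendsto_sum_range_one_div_nat_succ_atTop
  rw [Filter.tendsto_atTop] at hdiv
  obtain ⟨M, hM⟩ := (hdiv (∑ i ∈ Finset.range (N + 1), (1 / ((i : ℝ) + 1)) + 2)).exists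
  have h1 := hsum M
  have h2 := G_le_one (t := 90) X0_pos X0_le_one const_bound M
  linarith

end Pool.Agent.Helper12.IC
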