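import Pool.Agent.Helper12.HeightLB

set_option autoImplicit false

open Polynomial

namespace Pool.Agent.Helper12.SidonPoly

/-- The Sidon property for a finite set of naturals. -/
def Sid (A : Finset ℕ) : Prop :=
  ∀ a ∈ A, ∀ b ∈ A, ∀ c ∈ A, ∀ d ∈ A, a + b = c + d → (a = c ∧ b = d) ∨ (a = d ∧ b = c)

lemma sid_core (p : ℕ) (hp : p.Prime) (hp2 : 2 < p) (i j k l : ℕ) (hi : i < p) (hj : j < p)
    (hk : k < p) (hl : l < p)
    (h : 2 * p * i + i ^ 2 % p + (2 * p * j + j ^ 2 % p) =
      2 * p * k + k ^ 2 % p + (2 * p * l + l ^ 2 % p)) :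
    (i = k ∧ j = l) ∨ (i = l ∧ j = k) := by
  have hp0 : 0 < p := hp.pos
  have h1 := Nat.mod_lt (i ^ 2) hp0
  have h2 := Nat.mod_lt (j ^ 2) hp0
  have h3 := Nat.mod_lt (k ^ 2) hp0
  have h4 := Nat.mod_lt (l ^ 2) hp0
  have hsum : i + j = k + l := by
    clear hp
    generalize i ^ 2 % p = r1 at *
    generalize j ^ 2 % p = r2 at *
    generalize k ^ 2 % p = r3 at *
    generalize l ^ 2 % p = r4 at *
    by_contra hne
    rcases Nat.lt_or_gt_of_ne hne with hlt | hlt
    · have : 2 * p * (i + j + 1) ≤ 2 * p * (k + l) := Nat.mul_le_mul_left _ hlt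
      have e1 : 2 * p * (i + j + 1) = 2 * p * i + 2 * p * j + 2 * p := by ring
      have e2 : 2 * p * (k + l) = 2 * p * k + 2 * p * l := by ring
      omega
    · have : 2 * p * (k + l + 1) ≤ 2 * p * (i + j) := Nat.mul_le_mul_left _ hlt
      have e1 : 2 * p * (k + l + 1) = 2 * p * k + 2 * p * l + 2 * p := by ring
      have e2 : 2 * p * (i + j) = 2 * p * i + 2 * p * j := by ring
      omega
  have hres : i ^ 2 % p + j ^ 2 % p = k ^ 2 % p + l ^ 2 % p := by
    have h5 : 2 * p * (i + j) = 2 * p * (k + l) := by rw [hsum]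
    have e1 : 2 * p * (k + l) = 2 * p * k + 2 * p * l := by ring
    have e2 : 2 * p * (i + j) = 2 * p * i + 2 * p * j := by ring
    omega
  have : Fact p.Prime := ⟨hp⟩
  have hz : ((i : ZMod p)) ^ 2 + (j : ZMod p) ^ 2 = (k : ZMod p) ^ 2 + (l : ZMod p) ^ 2 := by
    have := congrArg (fun n : ℕ => (n : ZMod p)) hres
    simp only [Nat.cast_add, ZMod.natCast_mod, Nat.cast_pow] at this
    exact this
  have hz2 : (i : ZMod p) + (j : ZMod p) = (k : ZMod p) + (l : ZMod p) := by
    have := congrArg (fun n : ℕ => (n : ZMod p)) hsum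
    simpa using this
  have h2ne : (2 : ZMod p) ≠ 0 := by
    intro h0
    have : ((2 : ℕ) : ZMod p) = 0 := by exact_mod_cast h0
    rw [ZMod.natCast_eq_zero_iff] at this
    have := Nat.le_of_dvd (by norm_num) this
    omega
  have hprod : (2 : ZMod p) * (((i : ZMod p) - k) * ((i : ZMod p) - l)) = 0 := by
    have hj' : (j : ZMod p) = k + l - i := by linear_combination hz2
    rw [hj'] at hz
    linear_combination hz
  have hprod2 := (mul_eq_zero.mp hprod).resolve_left h2ne
  have hinj : ∀ a b : ℕ, a < p → b < p → (a : ZMod p) = (b : ZMod p) → a = b := by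
    intro a b ha hb hab
    rw [ZMod.natCast_eq_natCast_iff'] at hab
    rwa [Nat.mod_eq_of_lt ha, Nat.mod_eq_of_lt hb] at hab
  rcases mul_eq_zero.mp hprod2 with h5 | h5
  · left
    have := hinj i k hi hk (sub_eq_zero.mp h5)
    omega
  · right
    have := hinj i l hi hl (sub_eq_zero.mp h5)
    omega

lemma sid_exists (m : ℕ) (hm : 1 ≤ m) : ∃ A : Finset ℕ, A.card = m ∧ 0 ∈ A ∧ Sid A ∧
    (∀ a ∈ A, a ≤ 64 * m ^ 2) ∧ (∀ a ∈ A, a % 2 = 0) := by
  obtain ⟨p, hp, hlt, hle⟩ := Nat.exists_prime_lt_and_le_two_mul (m + 1) (by omega)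
  have hp2 : 2 < p := by omega
  refine ⟨(Finset.range m).image (fun i => 2 * (2 * p * i + i ^ 2 % p)), ?_, ?_, ?_, ?_, ?_⟩
  · rw [Finset.card_image_of_injOn, Finset.card_range]
    intro i hi j hj hij
    have hi' : i < p := by have := Finset.mem_range.mp hi; omega
    have hj' : j < p := by have := Finset.mem_range.mp hj; omega
    have hij' : 2 * (2 * p * i + i ^ 2 % p) = 2 * (2 * p * j + j ^ 2 % p) := hij
    have := sid_core p hp hp2 i i j j hi' hi' hj' hj' (by omega)
    omega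
  · rw [Finset.mem_image]
    exact ⟨0, Finset.mem_range.mpr (by omega), by simp⟩
  · intro a ha b hb c hc d hd habcd
    obtain ⟨i, hi, rfl⟩ := Finset.mem_image.mp ha
    obtain ⟨j, hj, rfl⟩ := Finset.mem_image.mp hb
    obtain ⟨k, hk, rfl⟩ := Finset.mem_image.mp hc
    obtain ⟨l, hl, rfl⟩ := Finset.mem_image.mp hd
    rw [Finset.mem_range] at hi hj hk hl
    have := sid_core p hp hp2 i j k l (by omega) (by omega) (by omega) (by omega) (by omega)
    rcases this with ⟨rfl, rfl⟩ | ⟨rfl, rfl⟩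
    · left; exact ⟨rfl, rfl⟩
    · right; exact ⟨rfl, rfl⟩
  · intro a ha
    obtain ⟨i, hi, rfl⟩ := Finset.mem_image.mp ha
    rw [Finset.mem_range] at hi
    have h1 := Nat.mod_lt (i ^ 2) hp.pos
    have h2 : 2 * (2 * p * i + i ^ 2 % p) ≤ 4 * p * p := by nlinarith
    have h3 : p ≤ 4 * m := by omega
    nlinarith
  · intro a ha
    obtain ⟨i, hi, rfl⟩ := Finset.mem_image.mp ha
    omega

/-- Monic integer polynomials separable modulo a prime are separable over `ℚ`. -/
lemma sep_of_mod (p : ℕ) (hp : p.Prime) (f : ℤ[X]) (hf : f.Monic)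
    (h : (f.map (Int.castRingHom (ZMod p))).Separable) :
    (f.map (Int.castRingHom ℚ)).Separable := by
  have : Fact p.Prime := ⟨hp⟩
  by_contra hns
  have hnc : ¬ IsCoprime (f.map (Int.castRingHom ℚ))
      (derivative (f.map (Int.castRingHom ℚ))) := hns
  rw [Polynomial.isCoprime_iff_aeval_ne_zero_of_isAlgClosed ℚ ℂ] at hnc
  push Not at hnc
  obtain ⟨z, hz1, hz2⟩ := hnc
  have hcomp : (algebraMap ℚ ℂ).comp (Int.castRingHom ℚ) = algebraMap ℤ ℂ := RingHom.ext_int _ _
  have e1 : aeval z f = 0 := by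
    rw [Polynomial.aeval_def, Polynomial.eval₂_map, hcomp, ← Polynomial.aeval_def] at hz1
    exact hz1
  have e2 : aeval z (derivative f) = 0 := by
    rw [Polynomial.derivative_map, Polynomial.aeval_def, Polynomial.eval₂_map, hcomp,
      ← Polynomial.aeval_def] at hz2
    exact hz2
  have hint : IsIntegral ℤ z := ⟨f, hf, by rw [← Polynomial.aeval_def]; exact e1⟩
  have d1 : minpoly ℤ z ∣ f := minpoly.isIntegrallyClosed_dvd hint e1
  have d2 : minpoly ℤ z ∣ derivative f := minpoly.isIntegrallyClosed_dvd hint e2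
  have m1 : (minpoly ℤ z).map (Int.castRingHom (ZMod p)) ∣ f.map (Int.castRingHom (ZMod p)) :=
    Polynomial.map_dvd _ d1
  have m2 : (minpoly ℤ z).map (Int.castRingHom (ZMod p)) ∣
      derivative (f.map (Int.castRingHom (ZMod p))) := by
    rw [Polynomial.derivative_map]
    exact Polynomial.map_dvd _ d2
  have hunit : IsUnit ((minpoly ℤ z).map (Int.castRingHom (ZMod p))) :=
    IsCoprime.isUnit_of_dvd' h m1 m2
  have hdeg : ((minpoly ℤ z).map (Int.castRingHom (ZMod p))).natDegree = (minpoly ℤ z).natDegree :=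
    (minpoly.monic hint).natDegree_map _
  have h0 := Polynomial.natDegree_eq_zero_of_isUnit hunit
  have hpos := minpoly.natDegree_pos hint
  omega

end Pool.Agent.Helper12.SidonPoly
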