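import Pool.Agent.Helper12.SkewPoly

set_option autoImplicit false

open Polynomial

namespace Pool.Agent.Helper12.Skew

/-- In characteristic `p`, `X^d - 1 = (X-1)^d` forces `d` to be a power of `p`. -/
lemma pow_of_X_pow_sub_one {K : Type*} [Field K] (p : ℕ) [hp : Fact p.Prime] [CharP K p]
    (d : ℕ) (hd : 0 < d) (h : (X : K[X]) ^ d - 1 = (X - 1) ^ d) : ∃ e, d = p ^ e := by
  obtain ⟨e, m, hm, hdm⟩ := Nat.exists_eq_pow_mul_and_not_dvd (show d ≠ 0 by omega) p
    hp.out.one_lt.ne'
  refine ⟨e, ?_⟩
  rw [hdm]
  have hm0 : (m : K) ≠ 0 := by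
    rw [Ne, CharP.cast_eq_zero_iff K p]
    exact hm
  have h1 : (X : K[X]) ^ m - 1 = (X - 1) ^ m := by
    have h2 : (((X : K[X]) ^ m - 1) - (X - 1) ^ m) ^ (p ^ e) = 0 := by
      rw [sub_pow_char_pow, sub_pow_char_pow, one_pow, ← pow_mul, ← pow_mul, mul_comm m (p ^ e),
        ← hdm, h, sub_self]
    have h3 := pow_eq_zero_iff (pow_ne_zero e hp.out.ne_zero) |>.mp h2
    exact sub_eq_zero.mp h3
  have hm1 : m = 1 := by
    by_contra hne
    have hm2 : 2 ≤ m := by
      have : m ≠ 0 := by rintro rfl; simp at hm0
      omega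
    have h2 := congrArg (fun q => (derivative q).eval 1) h1
    simp only [derivative_sub, derivative_X_pow, derivative_one, sub_zero, derivative_pow,
      derivative_X, mul_one, eval_mul, eval_pow, eval_sub, eval_X, eval_one, eval_C, one_pow,
      sub_self] at h2
    rw [zero_pow (by omega), mul_zero] at h2
    exact hm0 h2
  rw [hm1, mul_one]

/-- abstract classification: the root system. -/
lemma roots_classification {K : Type*} [Field K] (p : ℕ) [hp : Fact p.Prime] [CharP K p]
    (d : ℕ) (hd : 3 ≤ d) (τ : K ≃+* K) (y : ℕ → K) (hy0 : ∀ l, y (l + 1) = τ (y l))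
    (h : (X : K[X]) ^ d - 1 = (X - 1) * ∏ l ∈ Finset.Ico 1 d, (X - C (y l))) :
    ((∃ e, d = p ^ e) ∧ y 0 = 1) ∨
      (d.Prime ∧ (d : K) ≠ 0 ∧ IsPrimitiveRoot (y 0) d ∧ Set.InjOn y (Set.Ico 1 d)) := by
  by_cases hc : y 0 = 1
  · left
    refine ⟨?_, hc⟩
    have hall : ∀ l, y l = 1 := by
      intro l
      induction l with
      | zero => exact hc
      | succ l ih => rw [hy0, ih, map_one]
    apply pow_of_X_pow_sub_one (K := K) p d (by omega)
    rw [h]
    have : ∏ l ∈ Finset.Ico 1 d, (X - C (y l)) = (X - 1 : K[X]) ^ (d - 1) := by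
      rw [Finset.prod_congr rfl (fun l _ => by rw [hall l, C_1]), Finset.prod_const, Nat.card_Ico]
    rw [this, ← pow_succ']
    congr 1
    omega
  · right
    have hne : ∀ l, y l ≠ 1 := by
      intro l
      induction l with
      | zero => exact hc
      | succ l ih =>
        rw [hy0]
        intro h1
        exact ih (by rw [← map_one τ] at h1; exact τ.injective h1)
    have hd0 : (d : K) ≠ 0 := by
      have h2 := congrArg (fun q => (derivative q).eval 1) h
      simp only [derivative_sub, derivative_X_pow, derivative_one, sub_zero, derivative_mul,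
        derivative_X, eval_mul, eval_pow, eval_sub, eval_X, eval_one, eval_C, one_pow,
        sub_self, mul_one, one_mul, eval_add, zero_mul, add_zero] at h2
      rw [eval_prod] at h2
      rw [h2, Finset.prod_ne_zero_iff]
      intro l _
      rw [eval_sub, eval_X, eval_C, sub_ne_zero]
      exact (hne l).symm
    -- roots
    have hroots : ((X : K[X]) ^ d - 1).roots = 1 ::ₘ (Finset.Ico 1 d).val.map y := by
      have h1 : ((X - 1) * ∏ l ∈ Finset.Ico 1 d, (X - C (y l)) : K[X]) =
          ((1 ::ₘ (Finset.Ico 1 d).val.map y).map fun a => X - C a).prod := by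
        rw [Multiset.map_cons, Multiset.prod_cons, Multiset.map_map, C_1]
        rfl
      rw [h, h1, roots_multiset_prod_X_sub_C]
    have hnodup : (1 ::ₘ (Finset.Ico 1 d).val.map y).Nodup := by
      rw [← hroots]
      exact nodup_roots (X_pow_sub_one_separable_iff.mpr hd0)
    have hinj : Set.InjOn y (Set.Ico 1 d) := by
      intro i hi j hj hij
      have h1 := (Multiset.nodup_cons.mp hnodup).2
      exact Multiset.inj_on_of_nodup_map h1 i (by simpa using hi) j (by simpa using hj) hij
    have hX : ((X : K[X]) ^ d - 1) ≠ 0 := by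
      have := X_pow_sub_C_ne_zero (R := K) (show 0 < d by omega) 1
      simpa using this
    -- every nontrivial root is some y l
    have hmem : ∀ z : K, z ^ d = 1 → z ≠ 1 → ∃ l, z = y l := by
      intro z hz hz1
      have h1 : z ∈ ((X : K[X]) ^ d - 1).roots := by
        rw [mem_roots hX, IsRoot.def]
        simp [hz]
      rw [hroots, Multiset.mem_cons, Multiset.mem_map] at h1
      rcases h1 with h1 | ⟨l, _, hl⟩
      · exact absurd h1 hz1
      · exact ⟨l, hl.symm⟩
    have hyd : ∀ l, y l ^ d = 1 := by
      have h1 : y 1 ^ d = 1 := by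
        have h2 := congrArg (Polynomial.eval (y 1)) h
        rw [eval_mul, eval_prod, Finset.prod_eq_zero (i := 1) (by simp; omega) (by simp)] at h2
        simp only [eval_sub, eval_pow, eval_X, eval_one, mul_zero] at h2
        exact sub_eq_zero.mp h2
      have h0 : y 0 ^ d = 1 := by
        rw [hy0, ← map_pow, ← map_one τ] at h1
        exact τ.injective h1
      intro l
      induction l with
      | zero => exact h0
      | succ l ih => rw [hy0, ← map_pow, ih, map_one]
    have hord : ∀ l, orderOf (y l) = orderOf (y 0) := by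
      intro l
      induction l with
      | zero => rfl
      | succ l ih =>
        rw [hy0, ← ih]
        exact orderOf_injective τ.toMonoidHom τ.injective (y l)
    have hordz : ∀ z : K, z ^ d = 1 → z ≠ 1 → orderOf z = orderOf (y 0) := by
      intro z hz hz1
      obtain ⟨l, rfl⟩ := hmem z hz hz1
      exact hord l
    -- the order of y 0 is d
    have hdvd : orderOf (y 0) ∣ d := orderOf_dvd_of_pow_eq_one (hyd 0)
    have hpos : 0 < orderOf (y 0) := Nat.pos_of_dvd_of_pos hdvd (by omega)
    have hcard : d ≤ orderOf (y 0) := by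
      have h1 : (1 ::ₘ (Finset.Ico 1 d).val.map y) ≤
          ((X : K[X]) ^ (orderOf (y 0)) - 1).roots := by
        rw [Multiset.le_iff_subset hnodup]
        intro z hz
        have hX' : ((X : K[X]) ^ (orderOf (y 0)) - 1) ≠ 0 := by
          have := X_pow_sub_C_ne_zero (R := K) hpos 1
          simpa using this
        rw [mem_roots hX', IsRoot.def]
        rw [Multiset.mem_cons, Multiset.mem_map] at hz
        have hz' : z ^ (orderOf (y 0)) = 1 := by
          rcases hz with rfl | ⟨l, _, rfl⟩
          · simp
          · rw [← hord l]; exact pow_orderOf_eq_one _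
        simp [hz']
      have h2 := Multiset.card_le_card h1
      have h3 := card_roots' ((X : K[X]) ^ (orderOf (y 0)) - 1)
      have h4 : ((X : K[X]) ^ (orderOf (y 0)) - 1).natDegree = orderOf (y 0) := by
        have := natDegree_X_pow_sub_C (R := K) (n := orderOf (y 0)) (r := 1)
        simpa using this
      rw [h4] at h3
      rw [Multiset.card_cons, Multiset.card_map] at h2
      have h5 : Multiset.card (Finset.Ico 1 d).val = d - 1 := by
        change (Finset.Ico 1 d).card = d - 1
        simp
      rw [h5] at h2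
      omega
    have horder : orderOf (y 0) = d := le_antisymm (Nat.le_of_dvd (by omega) hdvd) hcard
    have hprim : IsPrimitiveRoot (y 0) d := by
      rw [← horder]; exact IsPrimitiveRoot.orderOf (y 0)
    refine ⟨?_, hd0, hprim, hinj⟩
    -- d is prime
    rw [Nat.prime_def]
    refine ⟨by omega, ?_⟩
    intro r hr
    by_contra hcon
    push Not at hcon
    obtain ⟨s, hs⟩ := hr
    have hr0 : 0 < r := by
      rcases Nat.eq_zero_or_pos r with h1 | h1
      · rw [h1, zero_mul] at hs; omega
      · exact h1
    have hr1 : 1 < r := by omega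
    have hrd : r < d := by
      rcases Nat.lt_or_ge r d with h1 | h1
      · exact h1
      · exfalso
        have : r ≤ d := Nat.le_of_dvd (by omega) ⟨s, hs⟩
        omega
    have h1 : y 0 ^ r ≠ 1 := hprim.pow_ne_one_of_pos_of_lt hr0.ne' hrd
    have h2 : (y 0 ^ r) ^ d = 1 := by
      rw [← pow_mul, mul_comm, pow_mul, hyd 0, one_pow]
    have h3 := hordz _ h2 h1
    rw [horder] at h3
    have h4 : (y 0 ^ r) ^ s = 1 := by rw [← pow_mul, ← hs, hyd 0]
    have h5 := orderOf_dvd_of_pow_eq_one h4
    rw [h3] at h5
    have hs0 : 0 < s := by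
      rcases Nat.eq_zero_or_pos s with h6 | h6
      · rw [h6, mul_zero] at hs; omega
      · exact h6
    have h6 := Nat.le_of_dvd hs0 h5
    nlinarith

end Pool.Agent.Helper12.Skew
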