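import Mathlib

set_option autoImplicit false

open Polynomial

namespace Pool.Agent.Helper12.Skew

variable {F K : Type*} [Field F] [Field K] [Algebra F K]

/-- Evaluation of the `σ`-polynomial with coefficient polynomial `p` as an `F`-linear map. -/
noncomputable def E (σ : K ≃ₐ[F] K) (p : K[X]) : K →ₗ[F] K :=
  ∑ j ∈ p.support, (LinearMap.mulLeft F (p.coeff j)) ∘ₗ (σ ^ j).toLinearMap

lemma E_apply (σ : K ≃ₐ[F] K) (p : K[X]) (x : K) :
    E σ p x = p.sum (fun j c => c * (σ ^ j) x) := by
  simp [E, Polynomial.sum, LinearMap.sum_apply]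

lemma E_zero (σ : K ≃ₐ[F] K) (x : K) : E σ 0 x = 0 := by
  simp [E_apply]

lemma E_add (σ : K ≃ₐ[F] K) (p q : K[X]) (x : K) : E σ (p + q) x = E σ p x + E σ q x := by
  simp only [E_apply]
  rw [Polynomial.sum_add_index]
  · intro i; simp
  · intro i a b; ring

lemma E_monomial (σ : K ≃ₐ[F] K) (j : ℕ) (c x : K) : E σ (monomial j c) x = c * (σ ^ j) x := by
  rw [E_apply, Polynomial.sum_monomial_index]
  simp

lemma E_C (σ : K ≃ₐ[F] K) (c x : K) : E σ (C c) x = c * x := by
  have := E_monomial σ 0 c x
  simpa using this

lemma E_X_pow (σ : K ≃ₐ[F] K) (j : ℕ) (x : K) : E σ (X ^ j) x = (σ ^ j) x := by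
  have := E_monomial σ j 1 x
  rwa [monomial_one_right_eq_X_pow, one_mul] at this

lemma E_C_mul (σ : K ≃ₐ[F] K) (c : K) (p : K[X]) (x : K) : E σ (C c * p) x = c * E σ p x := by
  induction p using Polynomial.induction_on' with
  | add p q hp hq => rw [mul_add, E_add, E_add, hp, hq, mul_add]
  | monomial n a => rw [C_mul_monomial, E_monomial, E_monomial, mul_assoc]

lemma E_neg (σ : K ≃ₐ[F] K) (p : K[X]) (x : K) : E σ (-p) x = - E σ p x := by
  have := E_C_mul σ (-1) p x
  simpa using this

lemma E_sub (σ : K ≃ₐ[F] K) (p q : K[X]) (x : K) : E σ (p - q) x = E σ p x - E σ q x := by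
  rw [sub_eq_add_neg, E_add, E_neg, sub_eq_add_neg]

/-- left multiplication by `σ` -/
lemma E_X_map (σ : K ≃ₐ[F] K) (p : K[X]) (x : K) :
    E σ (X * p.map (σ : K →+* K)) x = σ (E σ p x) := by
  induction p using Polynomial.induction_on' with
  | add p q hp hq => rw [Polynomial.map_add, mul_add, E_add, E_add, hp, hq, map_add]
  | monomial n a =>
    rw [Polynomial.map_monomial, X_mul_monomial, E_monomial, E_monomial, map_mul, pow_succ']
    rfl

/-- right multiplication by `X` is precomposition with `σ` -/
lemma E_mul_X (σ : K ≃ₐ[F] K) (p : K[X]) (x : K) :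
    E σ (p * X) x = E σ p (σ x) := by
  induction p using Polynomial.induction_on' with
  | add p q hp hq => rw [add_mul, E_add, E_add, hp, hq]
  | monomial n a =>
    rw [monomial_mul_X, E_monomial, E_monomial, pow_succ]
    rfl

/-- right division by `σ - u` -/
lemma exists_div (σ : K ≃ₐ[F] K) (u : K) (m : ℕ) : ∀ p : K[X], p.natDegree ≤ m + 1 →
    ∃ (q : K[X]) (r : K), q.natDegree ≤ m ∧ q.coeff m = p.coeff (m + 1) ∧
      ∀ x, E σ p x = E σ q (σ x - u * x) + r * x := by
  induction m with
  | zero =>
    intro p hp
    refine ⟨C (p.coeff 1), p.coeff 0 + p.coeff 1 * u, by simp, by simp, ?_⟩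
    intro x
    have hp' : p = C (p.coeff 1) * X + C (p.coeff 0) := by
      exact eq_X_add_C_of_natDegree_le_one (by simpa using hp)
    conv_lhs => rw [hp']
    rw [E_add, E_mul_X, E_C, E_C, E_C]
    ring
  | succ m ih =>
    intro p hp
    set c := p.coeff (m + 2) with hc
    have hdeg : (p - monomial (m + 2) c + monomial (m + 1) (c * (σ ^ (m + 1)) u)).natDegree
        ≤ m + 1 := by
      rw [natDegree_le_iff_coeff_eq_zero]
      intro N hN
      rw [coeff_add, coeff_sub, coeff_monomial, coeff_monomial]
      rcases Nat.lt_or_ge (m + 2) N with h | h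
      · rw [if_neg (by omega), if_neg (by omega)]
        rw [coeff_eq_zero_of_natDegree_lt (by omega)]
        simp
      · have : N = m + 2 := by omega
        subst this
        rw [if_pos rfl, if_neg (by omega), hc]
        ring
    obtain ⟨q, r, hq, hqc, hE⟩ := ih _ hdeg
    refine ⟨q + monomial (m + 1) c, r, ?_, ?_, ?_⟩
    · refine (natDegree_add_le _ _).trans (max_le (by omega) (natDegree_monomial_le _))
    · rw [coeff_add, coeff_monomial, if_pos rfl, coeff_eq_zero_of_natDegree_lt (by omega)]
      simp [hc]
    · intro x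
      have h1 := hE x
      rw [E_add, E_sub, E_monomial, E_monomial] at h1
      rw [E_add, E_monomial, map_sub (σ ^ (m + 1)), map_mul (σ ^ (m + 1))]
      have h2 : (σ ^ (m + 2)) x = (σ ^ (m + 1)) (σ x) := by
        rw [show m + 2 = (m + 1) + 1 from rfl, pow_succ]; rfl
      rw [h2] at h1
      linear_combination h1

variable [FiniteDimensional F K]

/-- the kernel of `σ - u` has dimension at most one -/
lemma finrank_ker_sub (σ : K ≃ₐ[F] K) (hfix : ∀ x : K, σ x = x → ∃ c : F, algebraMap F K c = x)
    (v : K) (hv : v ≠ 0) :
    Module.finrank F (LinearMap.ker (σ.toLinearMap - LinearMap.mulLeft F (σ v / v))) ≤ 1 := by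
  apply finrank_le_one (⟨v, ?_⟩ : LinearMap.ker (σ.toLinearMap - LinearMap.mulLeft F (σ v / v)))
  · rintro ⟨w, hw⟩
    rw [LinearMap.mem_ker] at hw
    simp only [LinearMap.sub_apply, AlgEquiv.toLinearMap_apply, LinearMap.mulLeft_apply] at hw
    have h1 : σ (w / v) = w / v := by
      rw [map_div₀]
      have hσv : σ v ≠ 0 := by simpa using hv
      have h2 : σ w = σ v / v * w := by linear_combination hw
      rw [h2]
      field_simp
    obtain ⟨c, hc⟩ := hfix _ h1
    refine ⟨c, ?_⟩
    apply Subtype.ext
    change c • v = w
    rw [Algebra.smul_def, hc]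
    field_simp
  · rw [LinearMap.mem_ker]
    simp only [LinearMap.sub_apply, AlgEquiv.toLinearMap_apply, LinearMap.mulLeft_apply]
    field_simp
    ring

/-- A nonzero `σ`-polynomial of `σ`-degree `k` has kernel of dimension at most `k`. -/
theorem finrank_ker_le (σ : K ≃ₐ[F] K) (hfix : ∀ x : K, σ x = x → ∃ c : F, algebraMap F K c = x)
    (m : ℕ) : ∀ p : K[X], p ≠ 0 → p.natDegree ≤ m →
    Module.finrank F (LinearMap.ker (E σ p)) ≤ m := by
  induction m with
  | zero =>
    intro p hp hdeg
    have hC : p = C (p.coeff 0) := eq_C_of_natDegree_le_zero hdeg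
    have hc : p.coeff 0 ≠ 0 := by
      intro h
      apply hp
      rw [hC, h, C_0]
    have : LinearMap.ker (E σ p) = ⊥ := by
      rw [LinearMap.ker_eq_bot']
      intro x hx
      rw [hC, E_C] at hx
      exact (mul_eq_zero.mp hx).resolve_left hc
    rw [this]
    simp
  | succ m ih =>
    intro p hp hdeg
    by_cases hlead : p.coeff (m + 1) = 0
    · have : p.natDegree ≤ m := by
        rw [natDegree_le_iff_coeff_eq_zero]
        intro N hN
        rcases Nat.lt_or_ge (m + 1) N with h | h
        · exact coeff_eq_zero_of_natDegree_lt (by omega)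
        · have : N = m + 1 := by omega
          rw [this, hlead]
      exact (ih p hp this).trans (by omega)
    · by_cases hker : LinearMap.ker (E σ p) = ⊥
      · rw [hker]; simp
      · rw [Submodule.eq_bot_iff] at hker
        push Not at hker
        obtain ⟨v, hvker, hv⟩ := hker
        obtain ⟨q, r, hq, hqc, hE⟩ := exists_div σ (σ v / v) m p hdeg
        have hr : r = 0 := by
          have h1 := hE v
          rw [LinearMap.mem_ker] at hvker
          rw [hvker] at h1
          have h2 : σ v - σ v / v * v = 0 := by field_simp; ring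
          rw [h2, map_zero, zero_add] at h1
          exact (mul_eq_zero.mp h1.symm).resolve_right hv
        have hq0 : q ≠ 0 := by
          intro h
          rw [h, coeff_zero] at hqc
          exact hlead hqc.symm
        have hcomp : E σ p = E σ q ∘ₗ (σ.toLinearMap - LinearMap.mulLeft F (σ v / v)) := by
          ext x
          rw [hE x, hr]
          simp
        have h1 := ih q hq0 hq
        have h2 := finrank_ker_sub σ hfix v hv
        rw [hcomp, LinearMap.ker_comp]
        set T := σ.toLinearMap - LinearMap.mulLeft F (σ v / v) with hT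
        -- rank nullity for the restriction
        have h3 := LinearMap.finrank_range_add_finrank_ker
          (T.domRestrict (Submodule.comap T (LinearMap.ker (E σ q))))
        have h4 : Module.finrank F (LinearMap.range
            (T.domRestrict (Submodule.comap T (LinearMap.ker (E σ q))))) ≤
            Module.finrank F (LinearMap.ker (E σ q)) := by
          apply Submodule.finrank_mono
          rintro _ ⟨⟨x, hx⟩, rfl⟩
          exact hx
        have h5 : Module.finrank F (LinearMap.ker
            (T.domRestrict (Submodule.comap T (LinearMap.ker (E σ q))))) ≤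
            Module.finrank F (LinearMap.ker T) := by
          let f : LinearMap.ker (T.domRestrict (Submodule.comap T (LinearMap.ker (E σ q)))) →ₗ[F]
              LinearMap.ker T :=
            LinearMap.codRestrict (LinearMap.ker T)
              ((Submodule.subtype _) ∘ₗ (Submodule.subtype _)) (by
                rintro ⟨x, hx⟩
                exact hx)
          apply LinearMap.finrank_le_finrank_of_injective (f := f)
          rintro ⟨⟨x, hx1⟩, hx2⟩ ⟨⟨y, hy1⟩, hy2⟩ hxy
          have := congrArg Subtype.val hxy
          simp only [f, LinearMap.codRestrict_apply, LinearMap.comp_apply, Submodule.subtype_apply]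
            at this
          simp only [Subtype.mk.injEq]
          exact this
        omega

end Pool.Agent.Helper12.Skew
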