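import Pool.Agent.Helper12.SkewTri

set_option autoImplicit false

open Polynomial

namespace Pool.Agent.Helper12.Skew

variable {F K : Type*} [Field F] [Field K] [Algebra F K]

/-- twisted complete symmetric expressions -/
noncomputable def gg (σ : K ≃ₐ[F] K) (d : ℕ) (c : K) : ℕ → ℕ → K
  | 0, 0 => 1
  | 0, (_ + 1) => 0
  | (k + 1), 0 => gg σ d c k 0
  | (k + 1), (i + 1) => gg σ d c k (i + 1) + ((σ ^ d) ^ k) c * σ (gg σ d c k i)

lemma gg_zero (σ : K ≃ₐ[F] K) (d : ℕ) (c : K) (k : ℕ) : gg σ d c k 0 = 1 := by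
  induction k with
  | zero => rfl
  | succ k ih => simpa [gg] using ih

lemma gg_succ (σ : K ≃ₐ[F] K) (d : ℕ) (c : K) (k i : ℕ) :
    gg σ d c (k + 1) (i + 1) = gg σ d c k (i + 1) + ((σ ^ d) ^ k) c * σ (gg σ d c k i) := rfl

lemma gg_of_lt (σ : K ≃ₐ[F] K) (d : ℕ) (c : K) (k : ℕ) : ∀ i, k < i → gg σ d c k i = 0 := by
  induction k with
  | zero =>
    intro i hi
    obtain ⟨j, rfl⟩ : ∃ j, i = j + 1 := ⟨i - 1, by omega⟩
    rfl
  | succ k ih =>
    intro i hi
    obtain ⟨j, rfl⟩ : ∃ j, i = j + 1 := ⟨i - 1, by omega⟩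
    rw [gg_succ, ih (j + 1) (by omega), ih j (by omega)]
    simp

/-- partial norms -/
noncomputable def AA (σ : K ≃ₐ[F] K) (d : ℕ) (a : K) (k : ℕ) : K :=
  ∏ l ∈ Finset.range k, ((σ ^ d) ^ l) a

lemma AA_ne_zero (σ : K ≃ₐ[F] K) (d : ℕ) {a : K} (ha : a ≠ 0) (k : ℕ) : AA σ d a k ≠ 0 := by
  unfold AA
  rw [Finset.prod_ne_zero_iff]
  intro l _
  exact (_root_.map_ne_zero _).mpr ha

lemma AA_succ (σ : K ≃ₐ[F] K) (d : ℕ) (a : K) (k : ℕ) :
    AA σ d a (k + 1) = AA σ d a k * ((σ ^ d) ^ k) a := by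
  unfold AA; rw [Finset.prod_range_succ]

/-- the invariant `-b ∏ a^(σ^(i d))` -/
noncomputable def zz (σ : K ≃ₐ[F] K) (d : ℕ) (a b : K) : K :=
  - (b * ∏ i ∈ Finset.range (d - 1), ((σ ^ d) ^ (i + 1)) a)

section
variable (σ : K ≃ₐ[F] K) (d : ℕ) (hd : 3 ≤ d) (htau : (σ ^ d) ^ d = σ)
include htau

lemma sigma_tau (k : ℕ) (x : K) : σ (((σ ^ d) ^ k) x) = ((σ ^ d) ^ (d + k)) x := by
  rw [pow_add, htau]; rfl

lemma AA_add_d (a : K) (k : ℕ) : AA σ d a (d + k) = AA σ d a d * σ (AA σ d a k) := by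
  unfold AA
  rw [Finset.prod_range_add, map_prod]
  congr 1
  apply Finset.prod_congr rfl
  intro l _
  rw [sigma_tau σ d htau]

include hd in
lemma key_id (a b : K) (k : ℕ) :
    ((σ ^ d) ^ k) b * AA σ d a d * σ (AA σ d a k) =
      - (AA σ d a (k + 1) * ((σ ^ d) ^ k) (zz σ d a b)) := by
  have h1 : ((σ ^ d) ^ k) (zz σ d a b) =
      - (((σ ^ d) ^ k) b * ∏ i ∈ Finset.range (d - 1), ((σ ^ d) ^ (k + 1 + i)) a) := by
    unfold zz
    rw [map_neg, map_mul, map_prod]
    congr 2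
    apply Finset.prod_congr rfl
    intro i _
    rw [show k + 1 + i = k + (i + 1) by ring, pow_add (σ ^ d) k (i + 1)]
    rfl
  have h2 : AA σ d a (k + 1) * ∏ i ∈ Finset.range (d - 1), ((σ ^ d) ^ (k + 1 + i)) a =
      AA σ d a (d + k) := by
    unfold AA
    rw [← Finset.prod_range_add]
    congr 2
    omega
  rw [h1, mul_assoc, ← AA_add_d σ d htau, ← h2]
  ring

include hd in
lemma cc_gg (a b : K) (k : ℕ) : ∀ i,
    (cc σ d a b k).coeff i * AA σ d a (d * i) = AA σ d a k * (-1) ^ i * gg σ d (zz σ d a b) k i := by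
  induction k with
  | zero =>
    intro i
    cases i with
    | zero => simp [cc, AA, gg]
    | succ i =>
      have : (cc σ d a b 0).coeff (i + 1) = 0 := by
        simp only [cc]
        rw [coeff_one, if_neg (by omega)]
      rw [this, gg_of_lt _ _ _ _ _ (by omega)]
      simp
  | succ k ih =>
    intro i
    cases i with
    | zero =>
      rw [cc_coeff_zero, gg_zero]
      simp [AA]
    | succ i =>
      have e : (cc σ d a b (k + 1)).coeff (i + 1) = ((σ ^ d) ^ k) a * (cc σ d a b k).coeff (i + 1)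
          + ((σ ^ d) ^ k) b * σ ((cc σ d a b k).coeff i) := by
        simp only [cc]
        rw [coeff_add, coeff_C_mul, coeff_C_mul, coeff_X_mul, coeff_map]
        rfl
      have h1 := ih (i + 1)
      have h2 := congrArg σ (ih i)
      have h3 := key_id σ d hd htau a b k
      have h4 : AA σ d a (d * (i + 1)) = AA σ d a d * σ (AA σ d a (d * i)) := by
        rw [← AA_add_d σ d htau]; congr 1; ring
      have hm1 : σ ((-1 : K) ^ i) = (-1) ^ i := by simp
      rw [map_mul, map_mul, map_mul, hm1] at h2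
      rw [e, gg_succ, add_mul]
      calc ((σ ^ d) ^ k) a * (cc σ d a b k).coeff (i + 1) * AA σ d a (d * (i + 1))
          + ((σ ^ d) ^ k) b * σ ((cc σ d a b k).coeff i) * AA σ d a (d * (i + 1))
          = ((σ ^ d) ^ k) a * ((cc σ d a b k).coeff (i + 1) * AA σ d a (d * (i + 1)))
          + ((σ ^ d) ^ k) b * AA σ d a d *
            (σ ((cc σ d a b k).coeff i) * σ (AA σ d a (d * i))) := by rw [h4]; ring
        _ = ((σ ^ d) ^ k) a * (AA σ d a k * (-1) ^ (i + 1) * gg σ d (zz σ d a b) k (i + 1))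
          + (((σ ^ d) ^ k) b * AA σ d a d * σ (AA σ d a k)) *
            ((-1) ^ i * σ (gg σ d (zz σ d a b) k i)) := by rw [h1, h2]; ring
        _ = _ := by rw [h3, AA_succ, pow_succ]; ring

/-- Relations in terms of `gg`. -/
def RelG (σ : K ≃ₐ[F] K) (d : ℕ) (a c : K) : Prop :=
  gg σ d c d d = (-1) ^ (d - 1) * AA σ d a (d ^ 2 - 1) ∧
  gg σ d c d 1 = c - 1 ∧
  ∀ i, 2 ≤ i → i < d → gg σ d c d i = 0

include hd in
lemma rel_iff_relG (hσ : σ ^ (d ^ 2 - 1) = 1) (a b : K) (ha : a ≠ 0) :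
    Rel σ d a b ↔ RelG σ d a (zz σ d a b) := by
  have hdd : 1 ≤ d ^ 2 := Nat.one_le_pow _ _ (by omega)
  have hτn : (σ ^ d) ^ (d ^ 2 - 1) = 1 := by
    rw [← pow_mul, mul_comm, pow_mul, hσ, one_pow]
  have hAdd : AA σ d a (d * d) = AA σ d a (d ^ 2 - 1) * a := by
    rw [show d * d = (d ^ 2 - 1) + 1 by rw [Nat.sub_add_cancel hdd]; ring, AA_succ, hτn]
    rfl
  have hAd := AA_ne_zero σ d ha d
  have hAn := AA_ne_zero σ d ha (d ^ 2 - 1)
  have h0 : (cc σ d a b d).coeff 0 = AA σ d a d := cc_coeff_zero σ d a b d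
  have h1 : (cc σ d a b d).coeff 1 = - gg σ d (zz σ d a b) d 1 := by
    have := cc_gg σ d hd htau a b d 1
    rw [mul_one] at this
    apply mul_right_cancel₀ hAd
    rw [this]; ring
  have hdd' : (cc σ d a b d).coeff d * (AA σ d a (d ^ 2 - 1) * a) =
      AA σ d a d * (-1) ^ d * gg σ d (zz σ d a b) d d := by
    rw [← hAdd]; exact cc_gg σ d hd htau a b d d
  have hAd' : AA σ d a d = a * ∏ i ∈ Finset.range (d - 1), ((σ ^ d) ^ (i + 1)) a := by
    unfold AA
    rw [show Finset.range d = Finset.range ((d - 1) + 1) by rw [Nat.sub_add_cancel (by omega)],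
      Finset.prod_range_succ']
    simp only [pow_zero, AlgEquiv.one_apply]
    ring
  have hsign : (-1 : K) ^ d = - (-1) ^ (d - 1) := by
    conv_lhs => rw [show d = (d - 1) + 1 by omega, pow_succ]
    ring
  have hi : ∀ i, (cc σ d a b d).coeff i = 0 ↔ gg σ d (zz σ d a b) d i = 0 := by
    intro i
    have h2 := cc_gg σ d hd htau a b d i
    have hAi := AA_ne_zero σ d ha (d * i)
    constructor
    · intro h
      rw [h, zero_mul] at h2
      have h3 : AA σ d a d * (-1) ^ i ≠ 0 := mul_ne_zero hAd (by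
        apply pow_ne_zero; norm_num)
      exact (mul_eq_zero.mp h2.symm).resolve_left h3
    · intro h
      rw [h, mul_zero] at h2
      exact (mul_eq_zero.mp h2).resolve_right hAi
  unfold Rel RelG
  constructor
  · rintro ⟨r0, r1, r2⟩
    refine ⟨?_, ?_, fun i h2 h3 => (hi i).mp (r2 i h2 h3)⟩
    · have h5 : AA σ d a d * (AA σ d a (d ^ 2 - 1) - (-1) ^ (d - 1) * gg σ d (zz σ d a b) d d)
          = 0 := by
        rw [hsign] at hdd'
        rw [h0] at r0
        linear_combination (AA σ d a (d ^ 2 - 1)) * r0 - hdd'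
      have h6 := (mul_eq_zero.mp h5).resolve_left hAd
      have h7 : ((-1 : K) ^ (d - 1)) * ((-1) ^ (d - 1)) = 1 := by
        rw [← mul_pow]; norm_num
      linear_combination (-(-1 : K) ^ (d - 1)) * h6 + (gg σ d (zz σ d a b) d d) * (-h7)
    · rw [h0, hAd'] at r0
      have h5 : a * (∏ i ∈ Finset.range (d - 1), ((σ ^ d) ^ (i + 1)) a +
          (cc σ d a b d).coeff d) = 0 := by linear_combination r0
      have h6 := (mul_eq_zero.mp h5).resolve_left ha
      rw [h1] at r1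
      have : zz σ d a b = - (b * ∏ i ∈ Finset.range (d - 1), ((σ ^ d) ^ (i + 1)) a) := rfl
      linear_combination -r1 + b * h6 - this
  · rintro ⟨r0, r1, r2⟩
    have h6 : (cc σ d a b d).coeff d = - ∏ i ∈ Finset.range (d - 1), ((σ ^ d) ^ (i + 1)) a := by
      apply mul_right_cancel₀ (mul_ne_zero hAn ha)
      rw [hdd', r0, hAd', hsign]
      have h7 : ((-1 : K) ^ (d - 1)) * ((-1) ^ (d - 1)) = 1 := by
        rw [← mul_pow]; norm_num
      linear_combination (-(a * ∏ i ∈ Finset.range (d - 1), ((σ ^ d) ^ (i + 1)) a) *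
        AA σ d a (d ^ 2 - 1)) * h7
    refine ⟨?_, ?_, fun i h2 h3 => (hi i).mpr (r2 i h2 h3)⟩
    · rw [h0, h6, hAd']; ring
    · rw [h1, h6, r1]
      have : zz σ d a b = - (b * ∏ i ∈ Finset.range (d - 1), ((σ ^ d) ^ (i + 1)) a) := rfl
      rw [this]; ring

include hd in
lemma gg_diag (c : K) (k : ℕ) : gg σ d c (k + 1) (k + 1) =
    ∏ m ∈ Finset.range (k + 1), ((σ ^ d) ^ ((d - 1) * m + k)) c := by
  induction k with
  | zero => simp [gg]
  | succ k ih =>
    rw [gg_succ, gg_of_lt _ _ _ _ _ (by omega), ih, map_prod, zero_add]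
    rw [Finset.prod_range_succ' _ (k + 1)]
    rw [mul_comm]
    congr 1
    · apply Finset.prod_congr rfl
      intro m _
      rw [sigma_tau σ d htau]
      congr 2
      obtain ⟨e, rfl⟩ : ∃ e, d = e + 1 := ⟨d - 1, by omega⟩
      rw [Nat.add_sub_cancel]
      ring
    · simp

include hd in
lemma fixed_of_diag (hσ : σ ^ (d ^ 2 - 1) = 1) (c : K)
    (hfixed : σ (gg σ d c d d) = gg σ d c d d)
    (hne : gg σ d c d d ≠ 0) : σ c = (σ ^ d) c := by
  have hτn : (σ ^ d) ^ (d ^ 2 - 1) = 1 := by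
    rw [← pow_mul, mul_comm, pow_mul, hσ, one_pow]
  obtain ⟨e, rfl⟩ : ∃ e, d = e + 1 := ⟨d - 1, by omega⟩
  set τ := σ ^ (e + 1) with hτ
  set ρ := τ ^ e with hρ
  have hg : gg σ (e + 1) c (e + 1) (e + 1) = ∏ m ∈ Finset.range (e + 1), (ρ ^ (m + 1)) c := by
    rw [gg_diag σ (e + 1) hd htau c e]
    apply Finset.prod_congr rfl
    intro m _
    have : (e + 1 - 1) * m + e = e * (m + 1) := by rw [Nat.add_sub_cancel]; ring
    rw [this, hρ, ← pow_mul τ e (m + 1)]
  have hρfix : ρ (gg σ (e + 1) c (e + 1) (e + 1)) = gg σ (e + 1) c (e + 1) (e + 1) := by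
    have hpow : ∀ k : ℕ, (σ ^ k) (gg σ (e + 1) c (e + 1) (e + 1)) =
        gg σ (e + 1) c (e + 1) (e + 1) := by
      intro k
      induction k with
      | zero => rfl
      | succ k ih =>
        rw [pow_succ]
        change (σ ^ k) (σ _) = _
        rw [hfixed, ih]
    rw [hρ, hτ, ← pow_mul]
    exact hpow _
  have hρord : (ρ ^ (e + 1 + 1)) c = c := by
    rw [hρ, ← pow_mul]
    have : e * (e + 1 + 1) = (e + 1) ^ 2 - 1 := by
      rw [show (e + 1) ^ 2 = e * (e + 1 + 1) + 1 by ring, Nat.add_sub_cancel]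
    rw [this, hτn]; rfl
  have h1 : ρ (gg σ (e + 1) c (e + 1) (e + 1)) * ρ c =
      gg σ (e + 1) c (e + 1) (e + 1) * (ρ ^ (e + 1 + 1)) c := by
    rw [hg, map_prod]
    have h2 : ∀ m ∈ Finset.range (e + 1), ρ ((ρ ^ (m + 1)) c) = (ρ ^ (m + 1 + 1)) c := by
      intro m _
      rw [pow_succ' ρ (m + 1)]; rfl
    rw [Finset.prod_congr rfl h2]
    rw [← Finset.prod_range_succ (fun m => (ρ ^ (m + 1)) c) (e + 1)]
    rw [Finset.prod_range_succ' (fun m => (ρ ^ (m + 1)) c) (e + 1)]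
    simp
  rw [hρfix, hρord] at h1
  have h3 : ρ c = c := mul_left_cancel₀ hne h1
  have h4 : σ c = τ (ρ c) := by
    have : τ * ρ = σ := by rw [hρ, ← pow_succ', htau]
    conv_lhs => rw [← this]
    rfl
  rw [h4, h3]

/-- Newton-type expansion -/
lemma newton (c : K) (hc : σ c = (σ ^ d) c) (k : ℕ) :
    (X : K[X]) ^ k = ∑ i ∈ Finset.range (k + 1), C (gg σ d c k i) *
      ∏ l ∈ Finset.Ico i k, (X - C (((σ ^ d) ^ l) c)) := by
  have hcl : ∀ l : ℕ, σ (((σ ^ d) ^ l) c) = ((σ ^ d) ^ (l + 1)) c := by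
    intro l
    have h1 : σ * (σ ^ d) ^ l = (σ ^ d) ^ l * σ := by
      rw [← pow_mul, ← pow_succ', ← pow_succ]
    have h2 : σ (((σ ^ d) ^ l) c) = ((σ ^ d) ^ l) (σ c) := DFunLike.congr_fun h1 c
    rw [h2, hc, pow_succ]; rfl
  induction k with
  | zero => simp [gg]
  | succ k ih =>
    have hmap : (X : K[X]) ^ k = ∑ i ∈ Finset.range (k + 1), C (σ (gg σ d c k i)) *
        ∏ l ∈ Finset.Ico (i + 1) (k + 1), (X - C (((σ ^ d) ^ l) c)) := by
      have h1 := congrArg (Polynomial.map (σ : K →+* K)) ih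
      rw [Polynomial.map_pow, map_X, Polynomial.map_sum] at h1
      rw [h1]
      apply Finset.sum_congr rfl
      intro i _
      rw [Polynomial.map_mul, map_C, Polynomial.map_prod]
      congr 1
      rw [← Finset.prod_Ico_add' _ i k 1]
      apply Finset.prod_congr rfl
      intro l _
      rw [Polynomial.map_sub, map_X, map_C]
      congr 2
      exact hcl l
    have e1 : (X : K[X]) ^ (k + 1) = X ^ k * (X - C (((σ ^ d) ^ k) c)) +
        C (((σ ^ d) ^ k) c) * X ^ k := by ring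
    rw [e1]
    conv_rhs => rw [Finset.sum_range_succ' _ (k + 1)]
    have e2 : ∑ i ∈ Finset.range (k + 1), C (gg σ d c (k + 1) (i + 1)) *
        ∏ l ∈ Finset.Ico (i + 1) (k + 1), (X - C (((σ ^ d) ^ l) c)) =
        ∑ i ∈ Finset.range (k + 1), C (gg σ d c k (i + 1)) *
        ∏ l ∈ Finset.Ico (i + 1) (k + 1), (X - C (((σ ^ d) ^ l) c)) +
        C (((σ ^ d) ^ k) c) * X ^ k := by
      conv_rhs => rw [hmap, Finset.mul_sum, ← Finset.sum_add_distrib]
      apply Finset.sum_congr rfl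
      intro i _
      rw [gg_succ, C_add, C_mul]
      ring
    rw [e2]
    have e3 : X ^ k * (X - C (((σ ^ d) ^ k) c)) =
        ∑ i ∈ Finset.range (k + 1), C (gg σ d c k (i + 1)) *
        ∏ l ∈ Finset.Ico (i + 1) (k + 1), (X - C (((σ ^ d) ^ l) c)) +
        C (gg σ d c (k + 1) 0) * ∏ l ∈ Finset.Ico 0 (k + 1), (X - C (((σ ^ d) ^ l) c)) := by
      rw [gg_zero, ← gg_zero σ d c k]
      rw [← Finset.sum_range_succ' (fun i => C (gg σ d c k i) *
        ∏ l ∈ Finset.Ico i (k + 1), (X - C (((σ ^ d) ^ l) c))) (k + 1)]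
      rw [Finset.sum_range_succ, gg_of_lt σ d c k (k + 1) (by omega), C_0, zero_mul, add_zero]
      conv_lhs => rw [ih, Finset.sum_mul]
      apply Finset.sum_congr rfl
      intro i hi
      rw [Finset.mem_range] at hi
      rw [Finset.prod_Ico_succ_top (by omega)]
      ring
    rw [e3]
    ring

end

/-- uniqueness of Newton-type expansions -/
lemma newton_unique (y : ℕ → K) (m : ℕ) : ∀ e : ℕ → K,
    ∑ i ∈ Finset.range (m + 1), C (e i) * ∏ l ∈ Finset.Ico i m, (X - C (y l)) = 0 →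
    ∀ i, i ≤ m → e i = 0 := by
  induction m with
  | zero =>
    intro e h i hi
    have : i = 0 := by omega
    subst this
    simpa using h
  | succ m ih =>
    intro e h i hi
    have hfac : ∀ i ∈ Finset.range (m + 1), C (e i) * ∏ l ∈ Finset.Ico i (m + 1), (X - C (y l)) =
        (C (e i) * ∏ l ∈ Finset.Ico i m, (X - C (y l))) * (X - C (y m)) := by
      intro i hi
      rw [Finset.mem_range] at hi
      rw [Finset.prod_Ico_succ_top (by omega)]
      ring
    rw [Finset.sum_range_succ, Finset.sum_congr rfl hfac, ← Finset.sum_mul] at h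
    have hlast : e (m + 1) = 0 := by
      have h1 := congrArg (Polynomial.eval (y m)) h
      simpa using h1
    rw [hlast, C_0, zero_mul, add_zero] at h
    have h2 := (mul_eq_zero.mp h).resolve_right (X_sub_C_ne_zero (y m))
    rcases Nat.lt_or_ge i (m + 1) with h3 | h3
    · exact ih e h2 i (by omega)
    · have : i = m + 1 := by omega
      rw [this, hlast]

/-- The polynomial identity `Z^d - 1 = (Z - 1) ∏ (Z - τ^l c)`. -/
def PolyId (σ : K ≃ₐ[F] K) (d : ℕ) (c : K) : Prop :=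
  (X : K[X]) ^ d - 1 = (X - 1) * ∏ l ∈ Finset.Ico 1 d, (X - C (((σ ^ d) ^ l) c))

theorem relG_iff (σ : K ≃ₐ[F] K) (d : ℕ) (hd : 3 ≤ d) (hσ : σ ^ (d ^ 2 - 1) = 1)
    (a c : K) (ha : a ≠ 0) (hN : σ (AA σ d a (d ^ 2 - 1)) = AA σ d a (d ^ 2 - 1)) :
    RelG σ d a c ↔ AA σ d a (d ^ 2 - 1) = (-1) ^ (d - 1) ∧ σ c = (σ ^ d) c ∧ PolyId σ d c := by
  have hdd : 1 ≤ d ^ 2 := Nat.one_le_pow _ _ (by omega)
  have htau : (σ ^ d) ^ d = σ := by
    rw [← pow_mul, show d * d = (d ^ 2 - 1) + 1 by rw [Nat.sub_add_cancel hdd]; ring, pow_succ, hσ,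
      one_mul]
  have h7 : ((-1 : K) ^ (d - 1)) * ((-1) ^ (d - 1)) = 1 := by
    rw [← mul_pow]; norm_num
  -- splitting sums of the special shape
  have hsum : ∀ f : ℕ → K[X], (∀ i, 2 ≤ i → i < d → f i = 0) →
      ∑ i ∈ Finset.range (d + 1), f i = f 0 + f 1 + f d := by
    intro f hf
    rw [Finset.sum_range_succ]
    obtain ⟨e, rfl⟩ : ∃ e, d = e + 2 := ⟨d - 2, by omega⟩
    rw [Finset.sum_range_succ' _ (e + 1), Finset.sum_range_succ' _ e]
    rw [Finset.sum_eq_zero]
    · ring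
    · intro i hi
      rw [Finset.mem_range] at hi
      exact hf _ (by omega) (by omega)
  have hprod0 : ∀ g : ℕ → K[X], ∏ l ∈ Finset.Ico 0 d, g l = g 0 * ∏ l ∈ Finset.Ico 1 d, g l := by
    intro g
    rw [Finset.prod_eq_prod_Ico_succ_bot (by omega)]
  constructor
  · rintro ⟨r0, r1, r2⟩
    have hfix : σ (gg σ d c d d) = gg σ d c d d := by
      rw [r0, map_mul, hN, map_pow, map_neg, map_one]
    have hne : gg σ d c d d ≠ 0 := by
      rw [r0]
      exact mul_ne_zero (by apply pow_ne_zero; norm_num) (AA_ne_zero σ d ha _)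
    have hc := fixed_of_diag σ d hd htau hσ c hfix hne
    have hnew := newton σ d htau c hc d
    rw [hsum _ (fun i h2 h3 => by rw [r2 i h2 h3, C_0, zero_mul]), gg_zero, r1, hprod0] at hnew
    simp only [Finset.Ico_self, Finset.prod_empty, pow_zero, AlgEquiv.one_apply] at hnew
    have hid : (X : K[X]) ^ d = (X - 1) * ∏ l ∈ Finset.Ico 1 d, (X - C (((σ ^ d) ^ l) c)) +
        C (gg σ d c d d) := by
      rw [hnew, C_1, C_sub, C_1]
      ring
    have hone : gg σ d c d d = 1 := by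
      have h1 := congrArg (Polynomial.eval (1 : K)) hid
      simpa using h1.symm
    refine ⟨?_, hc, ?_⟩
    · rw [hone] at r0
      linear_combination (-(AA σ d a (d ^ 2 - 1))) * h7 - (-1 : K) ^ (d - 1) * r0
    · unfold PolyId
      rw [hone, C_1] at hid
      linear_combination hid
  · rintro ⟨hA, hc, hP⟩
    unfold PolyId at hP
    have hnew := newton σ d htau c hc d
    let g' : ℕ → K := fun i => if i = 0 then 1 else if i = 1 then c - 1 else if i = d then 1 else 0
    have g'0 : g' 0 = 1 := if_pos rfl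
    have g'1 : g' 1 = c - 1 := by
      simp [g']
    have g'd : g' d = 1 := by
      have h1 : d ≠ 0 := by omega
      have h2 : d ≠ 1 := by omega
      simp [g', h1, h2]
    have g'i : ∀ i, 2 ≤ i → i < d → g' i = 0 := by
      intro i h2 h3
      simp only [g']; rw [if_neg (by omega), if_neg (by omega), if_neg (by omega)]
    have hg' : (X : K[X]) ^ d = ∑ i ∈ Finset.range (d + 1), C (g' i) *
        ∏ l ∈ Finset.Ico i d, (X - C (((σ ^ d) ^ l) c)) := by
      rw [hsum]
      · rw [g'0, g'1, g'd, hprod0]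
        simp only [Finset.Ico_self, Finset.prod_empty, pow_zero, AlgEquiv.one_apply]
        rw [C_1, C_sub, C_1]
        linear_combination hP
      · intro i h2 h3
        rw [g'i i h2 h3, C_0, zero_mul]
    have hdiff : ∑ i ∈ Finset.range (d + 1), C (gg σ d c d i - g' i) *
        ∏ l ∈ Finset.Ico i d, (X - C (((σ ^ d) ^ l) c)) = 0 := by
      have : ∀ i ∈ Finset.range (d + 1), C (gg σ d c d i - g' i) *
        ∏ l ∈ Finset.Ico i d, (X - C (((σ ^ d) ^ l) c)) =
        C (gg σ d c d i) * ∏ l ∈ Finset.Ico i d, (X - C (((σ ^ d) ^ l) c)) -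
        C (g' i) * ∏ l ∈ Finset.Ico i d, (X - C (((σ ^ d) ^ l) c)) := by
        intro i _
        rw [C_sub]; ring
      rw [Finset.sum_congr rfl this, Finset.sum_sub_distrib, ← hnew, ← hg', sub_self]
    have huniq := newton_unique (fun l => ((σ ^ d) ^ l) c) d _ hdiff
    refine ⟨?_, ?_, ?_⟩
    · have := huniq d le_rfl
      rw [g'd] at this
      rw [hA, h7]
      linear_combination this
    · have := huniq 1 (by omega)
      rw [g'1] at this
      linear_combination this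
    · intro i h2 h3
      have := huniq i (by omega)
      rw [g'i i h2 h3] at this
      linear_combination this

end Pool.Agent.Helper12.Skew
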