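import Pool.Agent.Helper12.SkewKernel

set_option autoImplicit false

open Polynomial

namespace Pool.Agent.Helper12.Skew

variable {F K : Type*} [Field F] [Field K] [Algebra F K]

/-- The trinomial `a x + b x^σ - x^(σ^d)`. -/
noncomputable def tri (σ : K ≃ₐ[F] K) (d : ℕ) (a b : K) : K →ₗ[F] K :=
  LinearMap.mulLeft F a + (LinearMap.mulLeft F b) ∘ₗ σ.toLinearMap - (σ ^ d).toLinearMap

lemma tri_apply (σ : K ≃ₐ[F] K) (d : ℕ) (a b x : K) :
    tri σ d a b x = a * x + b * σ x - (σ ^ d) x := by
  simp [tri]

lemma tri_eq (σ : K ≃ₐ[F] K) (d : ℕ) (a b : K) :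
    tri σ d a b = E σ (C a + C b * X - X ^ d) := by
  ext x
  rw [tri_apply, E_sub, E_add, E_C, E_mul_X, E_C, E_X_pow]

/-- coefficients of `τ^k = (σ^d)^k` modulo the trinomial -/
noncomputable def cc (σ : K ≃ₐ[F] K) (d : ℕ) (a b : K) : ℕ → K[X]
  | 0 => 1
  | (k + 1) => C (((σ ^ d) ^ k) a) * cc σ d a b k +
      C (((σ ^ d) ^ k) b) * (X * (cc σ d a b k).map (σ : K →+* K))

/-- cofactors -/
noncomputable def mm (σ : K ≃ₐ[F] K) (d : ℕ) (a b : K) : ℕ → K[X]
  | 0 => 0
  | (k + 1) => C (((σ ^ d) ^ k) a) * mm σ d a b k +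
      C (((σ ^ d) ^ k) b) * (X * (mm σ d a b k).map (σ : K →+* K)) - X ^ (d * k)

lemma tau_identity (σ : K ≃ₐ[F] K) (d : ℕ) (a b : K) (k : ℕ) (x : K) :
    ((σ ^ d) ^ k) x = E σ (cc σ d a b k) x + E σ (mm σ d a b k) (tri σ d a b x) := by
  induction k with
  | zero =>
    simp only [cc, mm, pow_zero, E_zero]
    rw [show (1 : K[X]) = C 1 from rfl, E_C]
    simp
  | succ k ih =>
    have h1 : ((σ ^ d) ^ (k + 1)) x = ((σ ^ d) ^ k) ((σ ^ d) x) := by
      rw [pow_succ]; rfl
    have h2 : (σ ^ d) x = a * x + b * σ x - tri σ d a b x := by rw [tri_apply]; ring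
    have h3 : ((σ ^ d) ^ k) (σ x) = σ (((σ ^ d) ^ k) x) := by
      have : (σ ^ d) ^ k * σ = σ * (σ ^ d) ^ k := by
        rw [← pow_mul, ← pow_succ, ← pow_succ']
      exact DFunLike.congr_fun this x
    rw [h1, h2, map_sub, map_add, map_mul, map_mul, h3]
    simp only [cc, mm]
    rw [E_add, E_C_mul, E_C_mul, E_X_map, E_sub, E_add, E_C_mul, E_C_mul, E_X_map, E_X_pow, ih,
      map_add, ← pow_mul]
    ring

lemma cc_natDegree (σ : K ≃ₐ[F] K) (d : ℕ) (a b : K) (k : ℕ) :
    (cc σ d a b k).natDegree ≤ k := by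
  induction k with
  | zero => simp [cc]
  | succ k ih =>
    simp only [cc]
    refine (natDegree_add_le _ _).trans (max_le ?_ ?_)
    · exact (natDegree_C_mul_le _ _).trans (by omega)
    · refine (natDegree_C_mul_le _ _).trans ((natDegree_mul_le).trans ?_)
      have := natDegree_map_le (f := (σ : K →+* K)) (p := cc σ d a b k)
      rw [natDegree_X]
      omega

lemma mm_props (σ : K ≃ₐ[F] K) (d : ℕ) (hd : 2 ≤ d) (a b : K) (k : ℕ) :
    (mm σ d a b (k + 1)).natDegree ≤ d * k ∧ (mm σ d a b (k + 1)).coeff (d * k) = -1 ∧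
    (mm σ d a b (k + 1)).coeff 0 = - ∏ l ∈ Finset.range k, ((σ ^ d) ^ (l + 1)) a := by
  induction k with
  | zero => simp [mm]
  | succ k ih =>
    obtain ⟨h1, h2, h3⟩ := ih
    have e : mm σ d a b (k + 1 + 1) = C (((σ ^ d) ^ (k + 1)) a) * mm σ d a b (k + 1) +
      C (((σ ^ d) ^ (k + 1)) b) * (X * (mm σ d a b (k + 1)).map (σ : K →+* K))
        - X ^ (d * (k + 1)) := rfl
    have hdk : d * (k + 1) = d * k + d := by ring
    have hmap : (X * (mm σ d a b (k + 1)).map (σ : K →+* K)).natDegree ≤ d * k + 1 := by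
      refine (natDegree_mul_le).trans ?_
      have := natDegree_map_le (f := (σ : K →+* K)) (p := mm σ d a b (k + 1))
      rw [natDegree_X]
      omega
    rw [e]
    refine ⟨?_, ?_, ?_⟩
    · refine (natDegree_sub_le _ _).trans (max_le ?_ (by simp))
      refine (natDegree_add_le _ _).trans (max_le ?_ ?_)
      · exact (natDegree_C_mul_le _ _).trans (by omega)
      · exact (natDegree_C_mul_le _ _).trans (by omega)
    · rw [coeff_sub, coeff_add, coeff_C_mul, coeff_C_mul,
        coeff_eq_zero_of_natDegree_lt (p := mm σ d a b (k + 1)) (by omega),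
        coeff_eq_zero_of_natDegree_lt (p := X * (mm σ d a b (k + 1)).map (σ : K →+* K)) (by omega)]
      simp
    · rw [coeff_sub, coeff_add, coeff_C_mul, coeff_C_mul, h3, Finset.prod_range_succ]
      simp only [mul_coeff_zero, coeff_X_zero, coeff_X_pow]
      rw [if_neg (by omega)]
      ring

/-- The relations on the coefficients. -/
def Rel (σ : K ≃ₐ[F] K) (d : ℕ) (a b : K) : Prop :=
  (cc σ d a b d).coeff 0 + (cc σ d a b d).coeff d * a = 0 ∧
  (cc σ d a b d).coeff 1 + (cc σ d a b d).coeff d * b = 1 ∧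
  ∀ i, 2 ≤ i → i < d → (cc σ d a b d).coeff i = 0

lemma cc_coeff_zero (σ : K ≃ₐ[F] K) (d : ℕ) (a b : K) (k : ℕ) :
    (cc σ d a b k).coeff 0 = ∏ l ∈ Finset.range k, ((σ ^ d) ^ l) a := by
  induction k with
  | zero => simp [cc]
  | succ k ih =>
    simp only [cc]
    rw [coeff_add, coeff_C_mul, coeff_C_mul, ih, Finset.prod_range_succ]
    simp only [mul_coeff_zero, coeff_X_zero]
    ring

variable [FiniteDimensional F K]

lemma finrank_ker_mul_X (σ : K ≃ₐ[F] K)
    (hfix : ∀ x : K, σ x = x → ∃ c : F, algebraMap F K c = x)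
    (m : ℕ) (q : K[X]) (hq : q ≠ 0) (hdeg : q.natDegree ≤ m) :
    Module.finrank F (LinearMap.ker (E σ (q * X))) ≤ m := by
  refine le_trans ?_ (finrank_ker_le σ hfix m q hq hdeg)
  let f : LinearMap.ker (E σ (q * X)) →ₗ[F] LinearMap.ker (E σ q) :=
    LinearMap.codRestrict _ (σ.toLinearMap ∘ₗ Submodule.subtype _) (by
      rintro ⟨x, hx⟩
      rw [LinearMap.mem_ker, E_mul_X] at hx
      exact hx)
  apply LinearMap.finrank_le_finrank_of_injective (f := f)
  rintro ⟨x, hx⟩ ⟨y, hy⟩ hxy
  have := congrArg Subtype.val hxy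
  simp only [f, LinearMap.codRestrict_apply, LinearMap.comp_apply, Submodule.subtype_apply,
    AlgEquiv.toLinearMap_apply] at this
  simp only [Subtype.mk.injEq]
  exact σ.injective this

lemma a_ne_zero (σ : K ≃ₐ[F] K) (hfix : ∀ x : K, σ x = x → ∃ c : F, algebraMap F K c = x)
    (d : ℕ) (hd : 3 ≤ d) (a b : K)
    (h : Module.finrank F (LinearMap.ker (tri σ d a b)) = d) : a ≠ 0 := by
  intro ha
  obtain ⟨e, rfl⟩ : ∃ e, d = e + 2 := ⟨d - 2, by omega⟩
  have h1 : tri σ (e + 2) a b = E σ ((C b - X ^ (e + 1)) * X) := by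
    rw [tri_eq, ha]
    congr 1
    rw [C_0]
    ring
  have h2 : (C b - X ^ (e + 1) : K[X]) ≠ 0 := by
    intro h0
    have := congrArg (fun p => p.coeff (e + 1)) h0
    simp only [coeff_sub, coeff_C_succ, coeff_X_pow, if_true, coeff_zero] at this
    norm_num at this
  have h3 : (C b - X ^ (e + 1) : K[X]).natDegree ≤ e + 1 :=
    (natDegree_sub_le _ _).trans (max_le (by simp) (by simp))
  have h4 := finrank_ker_mul_X σ hfix (e + 1) _ h2 h3
  rw [← h1, h] at h4
  omega

/-- Maximum kernel is equivalent to the coefficient relations. -/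
theorem maxker_iff_rel (σ : K ≃ₐ[F] K)
    (hfix : ∀ x : K, σ x = x → ∃ c : F, algebraMap F K c = x)
    (d : ℕ) (hd : 3 ≤ d) (hn : Module.finrank F K = d ^ 2 - 1) (hσ : σ ^ (d ^ 2 - 1) = 1)
    (a b : K) (ha : a ≠ 0) :
    Module.finrank F (LinearMap.ker (tri σ d a b)) = d ↔ Rel σ d a b := by
  have hdd : 1 ≤ d ^ 2 := Nat.one_le_pow _ _ (by omega)
  have htau : (σ ^ d) ^ d = σ := by
    rw [← pow_mul, show d * d = (d ^ 2 - 1) + 1 by rw [Nat.sub_add_cancel hdd]; ring, pow_succ, hσ,
      one_mul]
  set c := (cc σ d a b d).coeff d with hc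
  constructor
  · intro h
    let R : K[X] := cc σ d a b d - monomial d c + C (c * a) + C (c * b) * X - X
    have hRdeg : R.natDegree ≤ d - 1 := by
      rw [natDegree_le_iff_coeff_eq_zero]
      intro N hN
      have h1 : (C (c * b) * X : K[X]).coeff N = 0 := by
        apply coeff_eq_zero_of_natDegree_lt
        refine lt_of_le_of_lt (natDegree_C_mul_le _ _) ?_
        rw [natDegree_X]; omega
      have h2 : (X : K[X]).coeff N = 0 := by
        apply coeff_eq_zero_of_natDegree_lt
        rw [natDegree_X]; omega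
      have h3 : (C (c * a) : K[X]).coeff N = 0 := by
        apply coeff_eq_zero_of_natDegree_lt
        rw [natDegree_C]; omega
      simp only [R]
      rw [coeff_sub, coeff_add, coeff_add, coeff_sub, h1, h2, h3, coeff_monomial]
      rcases Nat.lt_or_ge d N with hN' | hN'
      · rw [if_neg (by omega), coeff_eq_zero_of_natDegree_lt
          (lt_of_le_of_lt (cc_natDegree σ d a b d) hN')]
        ring
      · have : N = d := by omega
        subst this
        rw [if_pos rfl, ← hc]
        ring
    have hRker : LinearMap.ker (tri σ d a b) ≤ LinearMap.ker (E σ R) := by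
      intro x hx
      rw [LinearMap.mem_ker] at hx ⊢
      have h1 := tau_identity σ d a b d x
      rw [hx, map_zero, add_zero, htau] at h1
      rw [tri_apply] at hx
      simp only [R]
      rw [E_sub, E_add, E_add, E_sub, E_C, E_mul_X, E_C, E_monomial, ← h1]
      have hX : E σ (X : K[X]) x = σ x := by
        have := E_X_pow σ 1 x
        simpa using this
      rw [hX]
      linear_combination c * hx
    have hR0 : R = 0 := by
      by_contra hne
      have h1 := finrank_ker_le σ hfix (d - 1) R hne hRdeg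
      have h2 := Submodule.finrank_mono hRker
      omega
    have hco : ∀ i, R.coeff i = 0 := fun i => by rw [hR0, coeff_zero]
    refine ⟨?_, ?_, ?_⟩
    · have := hco 0
      simp only [R, coeff_sub, coeff_add, coeff_C_zero, coeff_C_mul, coeff_X_zero,
        coeff_monomial] at this
      rw [if_neg (by omega)] at this
      linear_combination this
    · have := hco 1
      simp only [R, coeff_sub, coeff_add, coeff_C_mul, coeff_X_one,
        coeff_monomial, coeff_C] at this
      rw [if_neg (by omega), if_neg (by omega)] at this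
      linear_combination this
    · intro i hi hid
      have := hco i
      simp only [R, coeff_sub, coeff_add, coeff_C_mul, coeff_X,
        coeff_monomial, coeff_C] at this
      rw [if_neg (by omega), if_neg (by omega), if_neg (by omega)] at this
      linear_combination this
  · rintro ⟨h0, h1, h2⟩
    -- the coefficient polynomial is determined
    have hcc : cc σ d a b d = C ((cc σ d a b d).coeff 0) + C ((cc σ d a b d).coeff 1) * X
        + C c * X ^ d := by
      ext i
      rw [coeff_add, coeff_add, coeff_C_mul, coeff_C_mul, coeff_C, coeff_X, coeff_X_pow]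
      rcases Nat.lt_or_ge d i with hi | hi
      · rw [coeff_eq_zero_of_natDegree_lt (lt_of_le_of_lt (cc_natDegree σ d a b d) hi),
          if_neg (by omega), if_neg (by omega), if_neg (by omega)]
        ring
      · rcases Nat.lt_or_ge i 2 with hi2 | hi2
        · have : i = 0 ∨ i = 1 := by omega
          rcases this with rfl | rfl
          · rw [if_pos rfl, if_neg (by omega), if_neg (by omega)]; ring
          · rw [if_neg (by omega), if_pos rfl, if_neg (by omega)]; ring
        · rcases Nat.lt_or_ge i d with hid | hid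
          · rw [h2 i hi2 hid, if_neg (by omega), if_neg (by omega), if_neg (by omega)]; ring
          · have : i = d := by omega
            subst this
            rw [if_neg (by omega), if_neg (by omega), if_pos rfl, hc]; ring
    obtain ⟨e, rfl⟩ : ∃ e, d = e + 1 := ⟨d - 1, by omega⟩
    obtain ⟨hm1, hm2, hm3⟩ := mm_props σ (e + 1) (by omega) a b e
    set M : K[X] := mm σ (e + 1) a b (e + 1) with hM
    -- constant coefficient vanishes
    have hA : (cc σ (e + 1) a b (e + 1)).coeff 0 =
        a * ∏ l ∈ Finset.range e, ((σ ^ (e + 1)) ^ (l + 1)) a := by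
      rw [cc_coeff_zero, Finset.prod_range_succ']
      simp only [pow_zero, AlgEquiv.one_apply]
      ring
    have hcoef0 : (M - C c).coeff 0 = 0 := by
      rw [coeff_sub, coeff_C_zero, hm3]
      have h3 : a * (∏ l ∈ Finset.range e, ((σ ^ (e + 1)) ^ (l + 1)) a + c) = 0 := by
        rw [hA] at h0
        linear_combination h0
      have h4 := (mul_eq_zero.mp h3).resolve_left ha
      linear_combination -h4
    obtain ⟨Q, hQ⟩ : ∃ Q : K[X], M - C c = Q * X := by
      have := (X_dvd_iff (f := M - C c)).mpr hcoef0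
      obtain ⟨Q, hQ⟩ := this
      exact ⟨Q, by rw [hQ, mul_comm]⟩
    have hpos : 0 < (e + 1) * e := by
      have : 1 ≤ e := by omega
      positivity
    have hcoefM : (M - C c).coeff ((e + 1) * e) = -1 := by
      rw [coeff_sub, hm2, coeff_C, if_neg (by omega)]
      ring
    have hQ0 : Q ≠ 0 := by
      intro h
      rw [hQ, h, zero_mul, coeff_zero] at hcoefM
      norm_num at hcoefM
    have hQdeg : Q.natDegree ≤ (e + 1) * e - 1 := by
      have h3 : (Q * X).natDegree ≤ (e + 1) * e := by
        rw [← hQ]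
        exact (natDegree_sub_le _ _).trans (max_le hm1 (by simp))
      rw [natDegree_mul_X hQ0] at h3
      omega
    have hE0 : ∀ x, E σ (Q * X) (tri σ (e + 1) a b x) = 0 := by
      intro x
      have h3 := tau_identity σ (e + 1) a b (e + 1) x
      rw [htau, ← hM, hcc] at h3
      rw [E_add, E_add, E_C, E_mul_X, E_C, E_C_mul, E_X_pow] at h3
      rw [← hQ, E_sub, E_C, tri_apply]
      rw [tri_apply] at h3
      linear_combination -h3 - x * h0 - (σ x) * h1
    have hrange : LinearMap.range (tri σ (e + 1) a b) ≤ LinearMap.ker (E σ (Q * X)) := by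
      rintro _ ⟨x, rfl⟩
      exact hE0 x
    have h5 := Submodule.finrank_mono hrange
    have h6 := finrank_ker_mul_X σ hfix _ Q hQ0 hQdeg
    have h7 := LinearMap.finrank_range_add_finrank_ker (tri σ (e + 1) a b)
    have h8 : Module.finrank F (LinearMap.ker (tri σ (e + 1) a b)) ≤ e + 1 := by
      rw [tri_eq]
      apply finrank_ker_le σ hfix
      · intro h
        have := congrArg (fun p => p.coeff (e + 1)) h
        simp only [coeff_sub, coeff_add, coeff_C_mul, coeff_C_succ, coeff_X, coeff_X_pow, if_true,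
          coeff_zero] at this
        rw [if_neg (by omega)] at this
        norm_num at this
      · refine (natDegree_sub_le _ _).trans (max_le ?_ (by simp))
        refine (natDegree_add_le _ _).trans (max_le (by simp) ?_)
        refine (natDegree_C_mul_le _ _).trans ?_
        rw [natDegree_X]; omega
    rw [hn] at h7
    have h9 : (e + 1) ^ 2 - 1 = (e + 1) * e + e := by
      rw [show (e + 1) ^ 2 = (e + 1) * e + e + 1 by ring]
      rfl
    omega

end Pool.Agent.Helper12.Skew
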