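import Pool.Agent.Helper12.SomosEDS

set_option autoImplicit false

open Polynomial

namespace Pool.Agent.Helper12.SomosEDS

/-- Degree of `s n`. -/
def dN (n : ℕ) : ℕ := (n / 2) * (n / 2 + 1) + (n % 2) * (n / 2)

/-- Leading coefficient of `s n`. -/
def lN (n : ℕ) : ℤ := (-1) ^ (n / 2) * (if n % 2 = 0 then 1 else ((n / 2 : ℕ) : ℤ) + 1)

lemma dN_even (k : ℕ) : dN (2 * k) = k * (k + 1) := by
  unfold dN
  rw [Nat.mul_div_cancel_left k (by norm_num), Nat.mul_mod_right]; ring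

lemma dN_odd (k : ℕ) : dN (2 * k + 1) = k * (k + 1) + k := by
  unfold dN
  have h1 : (2 * k + 1) / 2 = k := by omega
  have h2 : (2 * k + 1) % 2 = 1 := by omega
  rw [h1, h2]; ring

lemma lN_even (k : ℕ) : lN (2 * k) = (-1) ^ k := by
  unfold lN
  rw [Nat.mul_div_cancel_left k (by norm_num), Nat.mul_mod_right]; simp

lemma lN_odd (k : ℕ) : lN (2 * k + 1) = (-1) ^ k * ((k : ℤ) + 1) := by
  unfold lN
  have h1 : (2 * k + 1) / 2 = k := by omega
  have h2 : (2 * k + 1) % 2 = 1 := by omega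
  rw [h1, h2]; simp

def DL (p : ℤ[X]) (d : ℕ) (l : ℤ) : Prop := p.natDegree = d ∧ p.leadingCoeff = l

lemma DL.mul {p q : ℤ[X]} {d e : ℕ} {l m : ℤ} (hp : DL p d l) (hq : DL q e m)
    (hl : l ≠ 0) (hm : m ≠ 0) : DL (p * q) (d + e) (l * m) := by
  have h1 : p ≠ 0 := by
    rintro rfl; exact hl (by simpa using hp.2.symm)
  have h2 : q ≠ 0 := by
    rintro rfl; exact hm (by simpa using hq.2.symm)
  exact ⟨by rw [natDegree_mul h1 h2, hp.1, hq.1], by rw [leadingCoeff_mul, hp.2, hq.2]⟩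

lemma DL.X2 {p : ℤ[X]} {d : ℕ} {l : ℤ} (hp : DL p d l) (hl : l ≠ 0) :
    DL (X ^ 2 * p ^ 2) (2 + (d + d)) (l * l) := by
  have h := DL.mul (p := X ^ 2) (q := p * p) (d := 2) (l := 1)
    ⟨by simp, by simp⟩ (hp.mul hp hl hl) one_ne_zero (mul_ne_zero hl hl)
  rw [one_mul] at h
  rw [pow_two p]
  exact h

lemma DL.add_lt {p q : ℤ[X]} {d e : ℕ} {l m : ℤ} (hp : DL p d l) (hq : DL q e m) (h : d < e) :
    DL (p + q) e m := by
  have h1 : p.natDegree < q.natDegree := by rw [hp.1, hq.1]; exact h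
  refine ⟨by rw [natDegree_add_eq_right_of_natDegree_lt h1, hq.1], ?_⟩
  rw [leadingCoeff_add_of_degree_lt (degree_lt_degree h1), hq.2]

lemma DL.add_eq {p q : ℤ[X]} {d : ℕ} {l m : ℤ} (hp : DL p d l) (hq : DL q d m) (h : l + m ≠ 0) :
    DL (p + q) d (l + m) := by
  have hc : (p + q).coeff d = l + m := by
    rw [coeff_add]
    have a := hp.2
    have b := hq.2
    rw [leadingCoeff, hp.1] at a
    rw [leadingCoeff, hq.1] at b
    rw [a, b]
  have hle : (p + q).natDegree ≤ d :=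
    (natDegree_add_le _ _).trans (by rw [hp.1, hq.1, max_self])
  have heq : (p + q).natDegree = d := natDegree_eq_of_le_of_coeff_ne_zero hle (by rw [hc]; exact h)
  exact ⟨heq, by rw [leadingCoeff, heq, hc]⟩

lemma DL.of_mul {p q r : ℤ[X]} {d e : ℕ} {l m : ℤ} (hr : DL r (d + e) (l * m)) (hq : DL q e m)
    (hm : m ≠ 0) (hl : l ≠ 0) (h : p * q = r) : DL p d l := by
  have h2 : q ≠ 0 := by
    rintro rfl; exact hm (by simpa using hq.2.symm)
  have h1 : p ≠ 0 := by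
    rintro rfl
    rw [zero_mul] at h
    have := hr.2
    rw [← h] at this
    simp at this
    rcases this with h | h
    · exact hl h
    · exact hm h
  constructor
  · have := hr.1
    rw [← h, natDegree_mul h1 h2, hq.1] at this
    omega
  · have := hr.2
    rw [← h, leadingCoeff_mul, hq.2] at this
    exact mul_right_cancel₀ hm this

lemma pm_ne (k : ℕ) : ((-1 : ℤ)) ^ k ≠ 0 := pow_ne_zero _ (by norm_num)

lemma lN_ne (n : ℕ) : lN n ≠ 0 := by
  unfold lN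
  refine mul_ne_zero (pm_ne _) ?_
  split_ifs
  · norm_num
  · positivity

lemma DL_step (n : ℕ) (h0 : DL (s n) (dN n) (lN n)) (h1 : DL (s (n + 1)) (dN (n + 1)) (lN (n + 1)))
    (h2 : DL (s (n + 2)) (dN (n + 2)) (lN (n + 2))) (h3 : DL (s (n + 3)) (dN (n + 3)) (lN (n + 3)))
    (h4 : S4 n) : DL (s (n + 4)) (dN (n + 4)) (lN (n + 4)) := by
  unfold S4 at h4
  have a := h3.mul h1 (lN_ne _) (lN_ne _)
  have b := h2.X2 (lN_ne _)
  refine DL.of_mul (r := s (n + 3) * s (n + 1) + X ^ 2 * s (n + 2) ^ 2) ?_ h0 (lN_ne _) (lN_ne _) h4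
  rcases Nat.even_or_odd' n with ⟨k, rfl | rfl⟩
  · have e1 : 2 * k + 1 = 2 * k + 1 := rfl
    have e2 : 2 * k + 2 = 2 * (k + 1) := by ring
    have e3 : 2 * k + 3 = 2 * (k + 1) + 1 := by ring
    have e4 : 2 * k + 4 = 2 * (k + 2) := by ring
    have := a.add_lt b (by
      rw [e2, e3, dN_even, dN_odd, dN_odd]; nlinarith)
    have hd : dN (2 * k + 4) + dN (2 * k) = 2 + (dN (2 * k + 2) + dN (2 * k + 2)) := by
      rw [e4, e2, dN_even, dN_even, dN_even]; ring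
    have hl : lN (2 * k + 4) * lN (2 * k) = lN (2 * k + 2) * lN (2 * k + 2) := by
      rw [e4, e2, lN_even, lN_even, lN_even]; ring
    rw [hd, hl]
    exact this
  · have e1 : 2 * k + 1 + 1 = 2 * (k + 1) := by ring
    have e2 : 2 * k + 1 + 2 = 2 * (k + 1) + 1 := by ring
    have e3 : 2 * k + 1 + 3 = 2 * (k + 2) := by ring
    have e4 : 2 * k + 1 + 4 = 2 * (k + 2) + 1 := by ring
    have hda : dN (2 * k + 1 + 3) + dN (2 * k + 1 + 1) =
        2 + (dN (2 * k + 1 + 2) + dN (2 * k + 1 + 2)) := by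
      rw [e1, e2, e3, dN_even, dN_even, dN_odd]; ring
    have hd : dN (2 * k + 1 + 4) + dN (2 * k + 1) =
        2 + (dN (2 * k + 1 + 2) + dN (2 * k + 1 + 2)) := by
      rw [e4, e2, dN_odd, dN_odd, dN_odd]; ring
    have hl : lN (2 * k + 1 + 4) * lN (2 * k + 1) = lN (2 * k + 1 + 3) * lN (2 * k + 1 + 1) +
        lN (2 * k + 1 + 2) * lN (2 * k + 1 + 2) := by
      rw [e4, e3, e2, e1, lN_even, lN_even, lN_odd, lN_odd, lN_odd]
      push_cast
      ring
    rw [hda] at a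
    rw [hd, hl]
    refine a.add_eq b ?_
    rw [← hl]
    exact mul_ne_zero (lN_ne _) (lN_ne _)

structure Inv (n : ℕ) : Prop where
  r0 : S4 n
  r1 : S4 (n + 1)
  r2 : S4 (n + 2)
  j : J n
  c : IsCoprime (s (n + 3)) (s (n + 2))
  d0 : DL (s n) (dN n) (lN n)
  d1 : DL (s (n + 1)) (dN (n + 1)) (lN (n + 1))
  d2 : DL (s (n + 2)) (dN (n + 2)) (lN (n + 2))
  d3 : DL (s (n + 3)) (dN (n + 3)) (lN (n + 3))

lemma DL.ne {p : ℤ[X]} {d : ℕ} {l : ℤ} (h : DL p d l) (hl : l ≠ 0) : p ≠ 0 := by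
  rintro rfl; exact hl (by simpa using h.2.symm)

lemma inv (n : ℕ) : Inv n := by
  induction n with
  | zero =>
    refine ⟨S4_0, S4_1, S4_2, J_0, ?_, ?_, ?_, ?_, ?_⟩
    · rw [show 0 + 3 = 3 from rfl, show 0 + 2 = 2 from rfl, s2, s3]
      exact ⟨-1, 2 * X, by ring⟩
    · refine ⟨?_, ?_⟩
      · rw [s0]; simp [dN]
      · rw [s0]; simp [lN]
    · refine ⟨?_, ?_⟩
      · rw [show 0 + 1 = 1 from rfl, s1]; simp [dN]
      · rw [show 0 + 1 = 1 from rfl, s1]; simp [lN]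
    · refine ⟨?_, ?_⟩
      · rw [show 0 + 2 = 2 from rfl, s2]; simp [dN]
      · rw [show 0 + 2 = 2 from rfl, s2]; simp [lN]
    · have h : (s 3) = C (-2) * X ^ 3 + C (-1) := by rw [s3]; simp; ring
      refine ⟨?_, ?_⟩
      · rw [show 0 + 3 = 3 from rfl, h]
        have : (C (-2 : ℤ) * X ^ 3 + C (-1)).natDegree = 3 := by compute_degree!
        rw [this]; simp [dN]
      · rw [show 0 + 3 = 3 from rfl, h]
        have hd : (C (-2 : ℤ) * X ^ 3 + C (-1)).natDegree = 3 := by compute_degree!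
        rw [leadingCoeff, hd]
        simp [lN, coeff_one]
  | succ n ih =>
    refine ⟨ih.r1, ih.r2, ?_, ?_, ?_, ih.d1, ih.d2, ih.d3, ?_⟩
    · exact S4_step ih.r0 ih.r1 ih.r2 ih.j ih.c (cop_two ih.j ih.c)
    · exact J_succ ih.r0 ih.r1 ih.j (ih.d1.ne (lN_ne _))
    · exact cop_adj ih.j ih.c
    · exact DL_step n ih.d0 ih.d1 ih.d2 ih.d3 ih.r0

end Pool.Agent.Helper12.SomosEDS
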