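import Mathlib

set_option autoImplicit false

open Polynomial

namespace Pool.Agent.Helper12.SomosEDS

/-- Exact quotient (zero when the division is not exact). -/
noncomputable def q (a b : ℤ[X]) : ℤ[X] := by
  classical
  exact if h : b ∣ a then Classical.choose h else 0

lemma q_spec {a b : ℤ[X]} (h : b ∣ a) : q a b * b = a := by
  unfold q
  rw [dif_pos h, mul_comm]
  exact (Classical.choose_spec h).symm

/-- Four consecutive terms of the sequence. -/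
noncomputable def st : ℕ → ℤ[X] × ℤ[X] × ℤ[X] × ℤ[X]
  | 0 => (1, 1, -X ^ 2, -(2 * X ^ 3 + 1))
  | n + 1 => ((st n).2.1, (st n).2.2.1, (st n).2.2.2,
      q ((st n).2.2.2 * (st n).2.1 + X ^ 2 * (st n).2.2.1 ^ 2) (st n).1)

/-- The sequence `s n = ψ_{n+1}` : `1, 1, -X², -(2X³+1), ...`. -/
noncomputable def s (n : ℕ) : ℤ[X] := (st n).1

lemma s0 : s 0 = 1 := rfl
lemma s1 : s 1 = 1 := rfl
lemma s2 : s 2 = -X ^ 2 := rfl
lemma s3 : s 3 = -(2 * X ^ 3 + 1) := rfl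

lemma s_rec (n : ℕ) : s (n + 4) = q (s (n + 3) * s (n + 1) + X ^ 2 * s (n + 2) ^ 2) (s n) := rfl

/-- The Somos-4 relation at `n`. -/
def S4 (n : ℕ) : Prop := s (n + 4) * s n = s (n + 3) * s (n + 1) + X ^ 2 * s (n + 2) ^ 2

/-- The cubic relation at `n`. -/
def J (n : ℕ) : Prop :=
  s (n + 3) ^ 2 * s n + s (n + 1) ^ 2 * s (n + 4) =
    2 * X * s (n + 1) * s (n + 2) * s (n + 3) - s (n + 2) ^ 3

lemma S4_of_dvd {n : ℕ} (h : s n ∣ s (n + 3) * s (n + 1) + X ^ 2 * s (n + 2) ^ 2) : S4 n := by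
  unfold S4
  rw [s_rec]
  exact q_spec h

lemma S4_0 : S4 0 := S4_of_dvd (by rw [s0]; exact one_dvd _)
lemma S4_1 : S4 1 := S4_of_dvd (by rw [s1]; exact one_dvd _)

lemma s4 : s 4 = X ^ 6 - 2 * X ^ 3 - 1 := by
  have h := S4_0
  unfold S4 at h
  simp only [zero_add] at h
  rw [s0, s1, s2, s3] at h
  linear_combination h

lemma s5 : s 5 = 3 * X ^ 8 + 6 * X ^ 5 + 2 * X ^ 2 := by
  have h := S4_1
  unfold S4 at h
  norm_num at h
  rw [s1, s2, s3, s4] at h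
  linear_combination h

lemma S4_2 : S4 2 := by
  apply S4_of_dvd
  norm_num
  rw [s2, s3, s4, s5]
  refine ⟨-(-(3 * X ^ 6 + 6 * X ^ 3 + 2) * (2 * X ^ 3 + 1) + (X ^ 6 - 2 * X ^ 3 - 1) ^ 2), ?_⟩
  ring

lemma J_0 : J 0 := by
  unfold J
  norm_num
  rw [s0, s1, s2, s3, s4]
  ring

lemma J_succ {n : ℕ} (h0 : S4 n) (h1 : S4 (n + 1)) (hJ : J n) (hne : s (n + 1) ≠ 0) : J (n + 1) := by
  unfold S4 at h0 h1
  unfold J at hJ ⊢
  have e : s (n + 1) * ((s (n + 1 + 3) ^ 2 * s (n + 1) + s (n + 1 + 1) ^ 2 * s (n + 1 + 4)) -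
      (2 * X * s (n + 1 + 1) * s (n + 1 + 2) * s (n + 1 + 3) - s (n + 1 + 2) ^ 3)) = 0 := by
    have a1 : n + 1 + 1 = n + 2 := rfl
    have a2 : n + 1 + 2 = n + 3 := rfl
    have a3 : n + 1 + 3 = n + 4 := rfl
    have a4 : n + 1 + 4 = n + 5 := rfl
    rw [a1, a2, a3, a4] at *
    linear_combination s (n + 4) * hJ - s (n + 3) ^ 2 * h0 + s (n + 2) ^ 2 * h1
  exact sub_eq_zero.mp ((mul_eq_zero.mp e).resolve_left hne)

/-- Main divisibility step. -/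
lemma S4_step {n : ℕ} (h0 : S4 n) (h1 : S4 (n + 1)) (h2 : S4 (n + 2)) (hJ : J n)
    (c1 : IsCoprime (s (n + 3)) (s (n + 2))) (c2 : IsCoprime (s (n + 3)) (s (n + 1))) :
    S4 (n + 3) := by
  apply S4_of_dvd
  unfold S4 at h0 h1 h2
  unfold J at hJ
  have key : s (n + 3) ∣ s (n + 1) ^ 2 * s (n + 2) *
      (s (n + 3 + 3) * s (n + 3 + 1) + X ^ 2 * s (n + 3 + 2) ^ 2) := by
    have a1 : n + 3 + 1 = n + 4 := rfl
    have a2 : n + 3 + 2 = n + 5 := rfl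
    have a3 : n + 3 + 3 = n + 6 := rfl
    have b1 : n + 1 + 1 = n + 2 := rfl
    have b2 : n + 1 + 2 = n + 3 := rfl
    have b3 : n + 1 + 3 = n + 4 := rfl
    have b4 : n + 1 + 4 = n + 5 := rfl
    have d1 : n + 2 + 1 = n + 3 := rfl
    have d2 : n + 2 + 2 = n + 4 := rfl
    have d3 : n + 2 + 3 = n + 5 := rfl
    have d4 : n + 2 + 4 = n + 6 := rfl
    rw [b1, b2, b3, b4] at h1
    rw [d1, d2, d3, d4] at h2
    rw [a1, a2, a3]
    refine ⟨s (n + 4) * s (n + 5) * s (n + 1) ^ 2 +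
      2 * X ^ 4 * s (n + 4) * s (n + 2) ^ 2 * s (n + 3) + X ^ 6 * s (n + 2) * s (n + 3) ^ 3 +
      X ^ 2 * s (n + 4) ^ 2 * (2 * X * s (n + 1) * s (n + 2) - s (n + 3) * s n), ?_⟩
    linear_combination s (n + 4) * s (n + 1) ^ 2 * h2 +
      X ^ 2 * s (n + 2) * (s (n + 5) * s (n + 1) + (s (n + 4) * s (n + 2) + X ^ 2 * s (n + 3) ^ 2)) * h1
      + X ^ 2 * s (n + 4) ^ 2 * hJ
  have hc : IsCoprime (s (n + 3)) (s (n + 1) ^ 2 * s (n + 2)) := (c2.pow_right).mul_right c1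
  exact hc.dvd_of_dvd_mul_left key

lemma cop_adj {n : ℕ} (hJ : J n) (c : IsCoprime (s (n + 3)) (s (n + 2))) :
    IsCoprime (s (n + 4)) (s (n + 3)) := by
  unfold J at hJ
  obtain ⟨u, v, huv⟩ := (c.pow_right (n := 3))
  refine ⟨-v * s (n + 1) ^ 2, u + v * (2 * X * s (n + 1) * s (n + 2) - s (n + 3) * s n), ?_⟩
  linear_combination huv + v * (-hJ)

lemma cop_two {n : ℕ} (hJ : J n) (c : IsCoprime (s (n + 3)) (s (n + 2))) :
    IsCoprime (s (n + 3)) (s (n + 1)) := by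
  unfold J at hJ
  obtain ⟨u, v, huv⟩ := (c.pow_right (n := 3))
  refine ⟨u + v * (2 * X * s (n + 1) * s (n + 2) - s (n + 3) * s n), -v * s (n + 1) * s (n + 4), ?_⟩
  linear_combination huv + v * (-hJ)

end Pool.Agent.Helper12.SomosEDS
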