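import Pool.Agent.Helper12.SomosDeg
import Pool.Agent.Helper12.HeightLB

set_option autoImplicit false

open Polynomial

namespace Pool.Agent.Helper12.SomosEDS

lemma adj (n : ℕ) : IsCoprime (s (n + 1)) (s n) := by
  rcases n with _ | _ | n
  · rw [s0]; exact isCoprime_one_right
  · rw [show 0 + 1 = 1 from rfl, s1]; exact isCoprime_one_right
  · exact (inv n).c

lemma two (n : ℕ) : IsCoprime (s (n + 2)) (s n) := by
  rcases n with _ | n
  · rw [s0]; exact isCoprime_one_right
  · exact cop_two (inv n).j (inv n).c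

lemma no_common {p q : ℤ[X]} (h : IsCoprime p q) (z : ℂ) (hp : aeval z p = 0) :
    aeval z q ≠ 0 := by
  intro hq
  obtain ⟨u, v, huv⟩ := h
  have := congrArg (aeval z) huv
  rw [map_add, map_mul, map_mul, hp, hq, map_one] at this
  simp at this

noncomputable def F0 (m : ℕ) : ℤ[X] := X * (s (m + 1) * s (m + 2)) - s m * s (m + 3)
noncomputable def F1 (m : ℕ) : ℤ[X] := s (m + 1) * s (m + 2)

lemma F_cop (m : ℕ) (z : ℂ) (h : aeval z (F1 m) = 0) : aeval z (F0 m) ≠ 0 := by
  have e : aeval z (F0 m) = - (aeval z (s m) * aeval z (s (m + 3))) := by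
    unfold F0
    rw [map_sub, map_mul]
    unfold F1 at h
    rw [h, map_mul]; ring
  rw [e, neg_ne_zero]
  unfold F1 at h
  rw [map_mul] at h
  rcases mul_eq_zero.mp h with h1 | h1
  · exact mul_ne_zero (no_common (adj m) z h1) (no_common (two (m + 1)).symm z h1)
  · exact mul_ne_zero (no_common (two m) z h1) (no_common (adj (m + 2)).symm z h1)

/-- The degree. -/
def dT (m : ℕ) : ℕ := (m + 2) * (m + 3) / 2

lemma dT_even (k : ℕ) : dT (2 * k) = (k + 1) * (2 * k + 3) := by
  unfold dT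
  rw [show (2 * k + 2) * (2 * k + 3) = 2 * ((k + 1) * (2 * k + 3)) by ring]
  exact Nat.mul_div_cancel_left _ (by norm_num)

lemma dT_odd (k : ℕ) : dT (2 * k + 1) = (2 * k + 3) * (k + 2) := by
  unfold dT
  rw [show (2 * k + 1 + 2) * (2 * k + 1 + 3) = 2 * ((2 * k + 3) * (k + 2)) by ring]
  exact Nat.mul_div_cancel_left _ (by norm_num)

lemma F1_DL (m : ℕ) : DL (F1 m) (dN (m + 1) + dN (m + 2)) (lN (m + 1) * lN (m + 2)) :=
  (inv m).d1.mul (inv m).d2 (lN_ne _) (lN_ne _)

lemma d_facts (m : ℕ) : dN (m + 1) + dN (m + 2) + 1 = dT m ∧ dN m + dN (m + 3) = dT m ∧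
    lN (m + 1) * lN (m + 2) - lN m * lN (m + 3) = 1 := by
  rcases Nat.even_or_odd' m with ⟨k, rfl | rfl⟩
  · rw [dT_even, show 2 * k + 2 = 2 * (k + 1) by ring, show 2 * k + 3 = 2 * (k + 1) + 1 by ring,
      dN_odd, dN_even, dN_even, dN_odd, lN_odd, lN_even, lN_even, lN_odd]
    refine ⟨by ring, by ring, ?_⟩
    have hs : ((-1 : ℤ)) ^ k * (-1) ^ k = 1 := by rw [← mul_pow]; simp
    push_cast
    rw [pow_succ]
    linear_combination hs
  · rw [dT_odd, show 2 * k + 1 + 1 = 2 * (k + 1) by ring,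
      show 2 * k + 1 + 2 = 2 * (k + 1) + 1 by ring,
      show 2 * k + 1 + 3 = 2 * (k + 2) by ring,
      dN_odd, dN_even, dN_odd, dN_even, lN_odd, lN_even, lN_odd, lN_even]
    refine ⟨by ring, by ring, ?_⟩
    have hs : ((-1 : ℤ)) ^ k * (-1) ^ k = 1 := by rw [← mul_pow]; simp
    push_cast
    rw [pow_succ, pow_succ]
    linear_combination hs

lemma F0_DL (m : ℕ) : DL (F0 m) (dT m) 1 := by
  obtain ⟨e1, e2, e3⟩ := d_facts m
  have a : DL (X * (s (m + 1) * s (m + 2))) (dT m) (lN (m + 1) * lN (m + 2)) := by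
    have := DL.mul (p := X) (d := 1) (l := 1) ⟨natDegree_X, leadingCoeff_X⟩ (F1_DL m) one_ne_zero
      (mul_ne_zero (lN_ne _) (lN_ne _))
    rw [one_mul, add_comm 1, e1] at this
    exact this
  have b : DL (-(s m * s (m + 3))) (dT m) (-(lN m * lN (m + 3))) := by
    have := (inv m).d0.mul (inv m).d3 (lN_ne _) (lN_ne _)
    rw [e2] at this
    exact ⟨by rw [natDegree_neg, this.1], by rw [leadingCoeff_neg, this.2]⟩
  have hne : lN (m + 1) * lN (m + 2) + -(lN m * lN (m + 3)) ≠ 0 := by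
    rw [← sub_eq_add_neg, e3]; norm_num
  have := a.add_eq b hne
  rw [← sub_eq_add_neg, ← sub_eq_add_neg, e3] at this
  exact this

lemma F1_lt (m : ℕ) : (F1 m).natDegree + 1 = dT m := by
  rw [(F1_DL m).1, (d_facts m).1]

lemma F_deg (m : ℕ) (v : ℤ) : (F0 m + C v * F1 m).natDegree = dT m := by
  have h0 := F0_DL m
  have h1 : (C v * F1 m).natDegree < (F0 m).natDegree := by
    have := natDegree_C_mul_le v (F1 m)
    have h2 := F1_lt m
    rw [h0.1]; omega
  rw [natDegree_add_eq_left_of_natDegree_lt h1, h0.1]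

lemma F_W (m : ℕ) : F0 m * derivative (F1 m) - derivative (F0 m) * F1 m ≠ 0 := by
  intro h
  have h0 := F0_DL m
  have h1 := F1_DL m
  have hlt := F1_lt m
  have hd2 : 3 ≤ dT m := by
    unfold dT
    have : 6 ≤ (m + 2) * (m + 3) := by nlinarith
    omega
  obtain ⟨e, he⟩ : ∃ e, dT m = e + 2 := ⟨dT m - 2, by omega⟩
  have g0 : (F0 m).natDegree ≤ e + 2 := by rw [h0.1, he]
  have g1 : (F1 m).natDegree ≤ e + 1 := by omega
  have c0 : (F0 m).coeff (e + 2) = 1 := by
    have := h0.2; rw [leadingCoeff, h0.1, he] at this; exact this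
  have c1 : (F1 m).coeff (e + 1) = lN (m + 1) * lN (m + 2) := by
    have := h1.2
    rw [leadingCoeff] at this
    rw [← this]; congr 1; omega
  have k1 : (derivative (F1 m)).natDegree ≤ e := by
    have := natDegree_derivative_le (F1 m); omega
  have k0 : (derivative (F0 m)).natDegree ≤ e + 1 := by
    have := natDegree_derivative_le (F0 m); omega
  have hc := congrArg (fun p => Polynomial.coeff p (e + 2 + e)) h
  simp only [coeff_sub, coeff_zero] at hc
  rw [coeff_mul_add_eq_of_natDegree_le g0 k1] at hc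
  rw [show e + 2 + e = (e + 1) + (e + 1) by ring, coeff_mul_add_eq_of_natDegree_le k0 g1,
    coeff_derivative, coeff_derivative, c0, c1] at hc
  have : lN (m + 1) * lN (m + 2) = 0 := by
    push_cast at hc
    linear_combination -hc
  exact mul_ne_zero (lN_ne _) (lN_ne _) this

/-! ### The values are squares -/

noncomputable def T : ℤ[X] := C 4 * X ^ 4 + C 2 * X

lemma T_deg : T.natDegree = 4 := by unfold T; compute_degree!

lemma comp_ne {p : ℤ[X]} (hp : p ≠ 0) : p.comp T ≠ 0 := by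
  intro h
  rw [Polynomial.comp_eq_zero_iff] at h
  rcases h with h | h
  · exact hp h
  · have := T_deg
    rw [h.2] at this
    simp at this

noncomputable def G (m : ℕ) : ℤ[X] := (F0 m).comp T - C 2 * X * (F1 m).comp T

lemma G_ne (m : ℕ) : G m ≠ 0 := by
  have h0 : ((F0 m).comp T).natDegree = dT m * 4 := by
    rw [natDegree_comp, T_deg, (F0_DL m).1]
  have h1 : (C 2 * X * (F1 m).comp T).natDegree < ((F0 m).comp T).natDegree := by
    have a : (C (2 : ℤ) * X).natDegree ≤ 1 := by compute_degree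
    have b : ((F1 m).comp T).natDegree = (F1 m).natDegree * 4 := by
      rw [natDegree_comp, T_deg]
    have c := natDegree_mul_le (p := C (2 : ℤ) * X) (q := (F1 m).comp T)
    have d := F1_lt m
    omega
  have h2 : (G m).natDegree = dT m * 4 := by
    unfold G
    rw [natDegree_sub_eq_left_of_natDegree_lt h1, h0]
  intro h
  rw [h] at h2
  simp at h2
  have := F1_lt m
  omega

lemma G_zero : G 0 = (C 8 * X ^ 6 + C 8 * X ^ 3 + 1) ^ 2 := by
  unfold G F0 F1 T
  norm_num
  rw [s0, s1, s2, s3]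
  simp only [neg_comp, mul_comp, add_comp, pow_comp, X_comp, one_comp, C_comp, ofNat_comp]
  ring

lemma G_mul (m : ℕ) : G (m + 1) * G m =
    ((s (m + 1)).comp T * (s (m + 3)).comp T + C 2 * X ^ 2 * ((s (m + 2)).comp T) ^ 2) ^ 2 := by
  have h4 := (inv m).r0
  have hJ := (inv m).j
  unfold S4 at h4
  unfold J at hJ
  have h4' := congrArg (fun p : ℤ[X] => p.comp T) h4
  have hJ' := congrArg (fun p : ℤ[X] => p.comp T) hJ
  simp only [mul_comp, add_comp, sub_comp, pow_comp, X_comp, ofNat_comp] at h4' hJ'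
  unfold G F0 F1
  simp only [mul_comp, add_comp, sub_comp, pow_comp, X_comp, ofNat_comp]
  rw [show m + 1 + 1 = m + 2 from rfl, show m + 1 + 2 = m + 3 from rfl,
    show m + 1 + 3 = m + 4 from rfl]
  set a := (s m).comp T
  set b := (s (m + 1)).comp T
  set c := (s (m + 2)).comp T
  set d := (s (m + 3)).comp T
  set e := (s (m + 4)).comp T
  have hT : T = 4 * X ^ 4 + 2 * X := by unfold T; simp
  rw [hT] at h4' hJ' ⊢
  have hC : (C 2 : ℤ[X]) = 2 := rfl
  rw [hC]
  linear_combination (b * d) * h4' - 4 * X ^ 4 * c * hJ'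

lemma G_square (m : ℕ) : ∃ y : ℤ[X], G m = y ^ 2 := by
  induction m with
  | zero => exact ⟨_, G_zero⟩
  | succ m ih =>
    obtain ⟨y, hy⟩ := ih
    have hne : y ≠ 0 := by
      rintro rfl
      exact G_ne m (by rw [hy]; ring)
    have hmul := G_mul m
    set Z := ((s (m + 1)).comp T * (s (m + 3)).comp T + C 2 * X ^ 2 * ((s (m + 2)).comp T) ^ 2)
    have hdvd : y ^ 2 ∣ Z ^ 2 := ⟨G (m + 1), by rw [← hmul, hy]; ring⟩
    have hd : y ∣ Z := (IsIntegrallyClosed.pow_dvd_pow_iff (n := 2) (by norm_num)).mp hdvd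
    obtain ⟨u, hu⟩ := hd
    refine ⟨u, ?_⟩
    have hy2 : y ^ 2 ≠ 0 := pow_ne_zero _ hne
    apply mul_right_cancel₀ hy2
    rw [← hy, hmul, hu, hy]; ring

lemma eval_square (m : ℕ) (w : ℤ) :
    ∃ y : ℤ, y ^ 2 = (F0 m + C (-2 * w) * F1 m).eval (4 * w ^ 4 + 2 * w) := by
  obtain ⟨y, hy⟩ := G_square m
  refine ⟨y.eval w, ?_⟩
  have h := congrArg (Polynomial.eval w) hy
  rw [eval_pow] at h
  rw [← h]
  unfold G T
  simp only [eval_sub, eval_mul, eval_comp, eval_add, eval_pow, eval_X, eval_C]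
  ring

end Pool.Agent.Helper12.SomosEDS
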